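import Mathlib
import Pool.Agent.R389.Defs

/-!
# Extensions of a cyclic group of order `p - 1` by an elementary abelian `p`-group
-/

set_option autoImplicit false
set_option linter.unusedSectionVars false

namespace Run7.h200.BK

open Pool.Agent.R389 Function

/-- the sum of the powers of a nontrivial `p`-th root of unity with exponents prime to `p` -/
lemma sum_units {p : ℕ} [Fact p.Prime] {w : ℂ} (hw : w ^ p = 1) :
    ∑ v : (ZMod p)ˣ, w ^ ((v : ZMod p).val) = if w = 1 then (p : ℂ) - 1 else -1 := by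
  classical
  have hp : p.Prime := Fact.out
  have h1 : ∑ a : ZMod p, w ^ a.val = 1 + ∑ v : (ZMod p)ˣ, w ^ ((v : ZMod p).val) := by
    rw [Fintype.sum_eq_add_sum_compl 0, ZMod.val_zero, pow_zero]
    congr 1
    symm
    refine Finset.sum_bij (fun v _ => (v : ZMod p)) ?_ ?_ ?_ ?_
    · intro v _
      rw [Finset.mem_compl, Finset.mem_singleton]
      exact v.ne_zero
    · intro v _ v' _ h
      exact Units.ext h
    · intro b hb
      rw [Finset.mem_compl, Finset.mem_singleton] at hb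
      exact ⟨Units.mk0 b hb, Finset.mem_univ _, rfl⟩
    · intro v _
      rfl
  have h2 : ∑ a : ZMod p, w ^ a.val = ∑ i ∈ Finset.range p, w ^ i := by
    refine Finset.sum_bij (fun a _ => a.val) ?_ ?_ ?_ ?_
    · intro a _
      exact Finset.mem_range.mpr (ZMod.val_lt a)
    · intro a _ b _ h
      exact ZMod.val_injective p h
    · intro i hi
      rw [Finset.mem_range] at hi
      exact ⟨(i : ZMod p), Finset.mem_univ _, ZMod.val_cast_of_lt hi⟩
    · intro a _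
      rfl
  rw [h2] at h1
  split_ifs with h
  · rw [h] at h1 ⊢
    simp only [one_pow, Finset.sum_const, Finset.card_range, nsmul_eq_mul, mul_one] at h1 ⊢
    rw [h1]
    ring
  · have h3 : (w - 1) * ∑ i ∈ Finset.range p, w ^ i = 0 := by
      rw [mul_geom_sum, hw, sub_self]
    rcases mul_eq_zero.mp h3 with h4 | h4
    · exact absurd (sub_eq_zero.mp h4) h
    · rw [h4] at h1
      linear_combination -h1

variable {G : Type} [Group G] [Finite G]

/-- the sum over the group of a function of the value of a surjective homomorphism -/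
lemma sum_fib {H : Type} [Group H] [Fintype G] [Fintype H] [DecidableEq H] (υ : G →* H)
    (hs : Surjective υ) (f : H → ℂ) : ∑ x : G, f (υ x) = (Nat.card υ.ker : ℂ) * ∑ v, f v := by
  rw [← Finset.sum_fiberwise Finset.univ υ, Finset.mul_sum]
  refine Finset.sum_congr rfl fun v _ => ?_
  have h1 : ∀ x ∈ Finset.univ.filter (fun x => υ x = v), f (υ x) = f v := fun x hx => by
    rw [(Finset.mem_filter.mp hx).2]
  rw [Finset.sum_congr rfl h1, Finset.sum_const, nsmul_eq_mul]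
  congr 1
  have h2 : (Finset.univ.filter fun x => υ x = v).card = (Finset.univ.filter fun x => υ x = 1).card :=
    MonoidHom.card_fiber_eq_of_mem_range υ (by simpa using hs v) (by simpa using hs 1)
  rw [h2, Nat.card_eq_fintype_card, ← Fintype.card_subtype]
  norm_cast
  exact Fintype.card_congr (Equiv.refl _)

/-- `N` is a normal subgroup of exponent `p`, the group acts on it by the powers given by the
homomorphism `υ` onto `(ℤ/p)ˣ` with the kernel `N`. -/
structure Aff (p : ℕ) (N : Subgroup G) (υ : G →* (ZMod p)ˣ) : Prop where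
  ker : υ.ker = N
  surj : Surjective υ
  pow : ∀ n ∈ N, n ^ p = 1
  act : ∀ g : G, ∀ n ∈ N, g * n * g⁻¹ = n ^ ((υ g : (ZMod p)ˣ) : ZMod p).val

variable {p : ℕ} [hp : Fact p.Prime] {N : Subgroup G} {υ : G →* (ZMod p)ˣ}

lemma Aff.normal (h : Aff p N υ) : N.Normal := by
  rw [← h.ker]
  infer_instance

lemma Aff.card_N (h : Aff p N υ) : ∃ k : ℕ, Nat.card N = p ^ k := by
  have h1 : IsPGroup p N := fun n => ⟨1, by
    rw [pow_one]
    exact Subtype.ext (h.pow n.1 n.2)⟩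
  exact IsPGroup.iff_card.mp h1

lemma Aff.index (h : Aff p N υ) : N.index = p - 1 := by
  rw [← h.ker, Subgroup.index_ker, MonoidHom.range_eq_top.mpr h.surj, Subgroup.card_top,
    Nat.card_eq_fintype_card, ZMod.card_units]

lemma Aff.compl (h : Aff p N υ) : ∃ C : Subgroup G, Subgroup.IsComplement' N C := by
  have := h.normal
  obtain ⟨k, hk⟩ := h.card_N
  refine Subgroup.exists_right_complement'_of_coprime ?_
  rw [hk, h.index]
  refine Nat.Coprime.pow_left _ ?_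
  rw [Nat.Prime.coprime_iff_not_dvd hp.out]
  intro h1
  have h2 := Nat.le_of_dvd (by have := hp.out.two_le; omega) h1
  have := hp.out.two_le
  omega

lemma Aff.comm (h : Aff p N υ) {n m : G} (hn : n ∈ N) (hm : m ∈ N) : n * m = m * n := by
  have h1 := h.act n m hm
  have h2 : υ n = 1 := by rw [← MonoidHom.mem_ker, h.ker]; exact hn
  rw [h2, Units.val_one, ZMod.val_one_eq_one_mod, Nat.mod_eq_of_lt hp.out.one_lt, pow_one] at h1
  rw [mul_inv_eq_iff_eq_mul] at h1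
  exact h1

/-- powers of elements of `N` -/
lemma Aff.pow_eq (h : Aff p N υ) {n : G} (hn : n ∈ N) {a b : ℤ} (hab : (a : ZMod p) = b) :
    n ^ a = n ^ b := by
  rw [← sub_eq_zero, ← Int.cast_sub, ZMod.intCast_zmod_eq_zero_iff_dvd] at hab
  obtain ⟨c, hc⟩ := hab
  have h1 : a = b + p * c := by linarith
  rw [h1, zpow_add, zpow_mul, zpow_natCast, h.pow n hn, one_zpow, mul_one]

section D

variable (h : Aff p N υ) (ψ : N →* ℂˣ) {C : Subgroup G} (hC : Subgroup.IsComplement' N C)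

/-- the kernel of `ψ` -/
def M0 (ψ : N →* ℂˣ) : Subgroup G := ψ.ker.map N.subtype

lemma mem_M0 {n : G} : n ∈ M0 ψ ↔ ∃ hn : n ∈ N, ψ ⟨n, hn⟩ = 1 := by
  unfold M0
  rw [Subgroup.mem_map]
  constructor
  · rintro ⟨x, hx, rfl⟩
    exact ⟨x.2, hx⟩
  · rintro ⟨hn, h1⟩
    exact ⟨⟨n, hn⟩, h1, rfl⟩

include h in
lemma M0_conj {n : G} (hn : n ∈ M0 ψ) (g : G) : g * n * g⁻¹ ∈ M0 ψ := by
  obtain ⟨h1, h2⟩ := (mem_M0 ψ).mp hn
  rw [h.act g n h1]
  refine (mem_M0 ψ).mpr ⟨N.pow_mem h1 _, ?_⟩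
  have h3 : (⟨n ^ ((υ g : (ZMod p)ˣ) : ZMod p).val, N.pow_mem h1 _⟩ : N) =
      ⟨n, h1⟩ ^ ((υ g : (ZMod p)ˣ) : ZMod p).val := rfl
  rw [h3, map_pow, h2, one_pow]

/-- the product of the kernel of `ψ` and the complement -/
def DD (C : Subgroup G) : Subgroup G where
  carrier := {g | ∃ m ∈ M0 ψ, ∃ c ∈ C, m * c = g}
  one_mem' := ⟨1, one_mem _, 1, one_mem _, one_mul 1⟩
  mul_mem' := by
    rintro _ _ ⟨m, hm, c, hc, rfl⟩ ⟨m', hm', c', hc', rfl⟩
    exact ⟨m * (c * m' * c⁻¹), mul_mem hm (M0_conj h ψ hm' c), c * c', mul_mem hc hc', by group⟩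
  inv_mem' := by
    rintro _ ⟨m, hm, c, hc, rfl⟩
    refine ⟨c⁻¹ * m⁻¹ * (c⁻¹)⁻¹, M0_conj h ψ (inv_mem hm) c⁻¹, c⁻¹, inv_mem hc, by group⟩

lemma M0_le : M0 ψ ≤ DD h ψ C := fun m hm => ⟨m, hm, 1, one_mem _, mul_one m⟩

lemma C_le : C ≤ DD h ψ C := fun c hc => ⟨1, one_mem _, c, hc, one_mul c⟩

include hC in
lemma D_inter {g : G} (hg : g ∈ DD h ψ C) (hN : g ∈ N) : g ∈ M0 ψ := by
  obtain ⟨m, hm, c, hc, rfl⟩ := hg
  have h1 : m ∈ N := ((mem_M0 ψ).mp hm).1
  have h2 : c ∈ N := by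
    have h3 := mul_mem (inv_mem h1) hN
    rwa [inv_mul_cancel_left] at h3
  have h3 : c = 1 := by
    have h4 : c ∈ N ⊓ C := ⟨h2, hc⟩
    rw [hC.disjoint.eq_bot, Subgroup.mem_bot] at h4
    exact h4
  rw [h3, mul_one]
  exact hm

include hC in
lemma exists_nd (g : G) : ∃ n ∈ N, ∃ c ∈ C, g = n * c := by
  obtain ⟨⟨n, c⟩, h1⟩ := hC.2 g
  exact ⟨n.1, n.2, c.1, c.2, h1.symm⟩

include hC in
lemma card_D : Nat.card (DD h ψ C) = Nat.card (M0 ψ) * Nat.card C := by
  rw [← Nat.card_prod]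
  symm
  refine Nat.card_congr (Equiv.ofBijective
    (fun x : M0 ψ × C => (⟨x.1 * x.2, ⟨x.1, x.1.2, x.2, x.2.2, rfl⟩⟩ : DD h ψ C)) ⟨?_, ?_⟩)
  · rintro ⟨m, c⟩ ⟨m', c'⟩ h1
    have h2 : (m : G) * c = m' * c' := congrArg Subtype.val h1
    have h3 := hC.1 (a₁ := (⟨m, ((mem_M0 ψ).mp m.2).1⟩, c))
      (a₂ := (⟨m', ((mem_M0 ψ).mp m'.2).1⟩, c')) h2
    have h4 := congrArg Prod.fst h3
    have h5 := congrArg Prod.snd h3
    have h6 : (m : G) = m' := congrArg (fun x : N => (x : G)) h4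
    exact Prod.ext (Subtype.ext h6) h5
  · rintro ⟨_, m, hm, c, hc, rfl⟩
    exact ⟨(⟨m, hm⟩, ⟨c, hc⟩), rfl⟩

include h in
lemma card_ker (hψ : ψ ≠ 1) : Nat.card N = p * Nat.card (M0 ψ) := by
  have h1 : Nat.card (M0 ψ) = Nat.card ψ.ker :=
    (Nat.card_congr (ψ.ker.equivMapOfInjective N.subtype N.subtype_injective).toEquiv).symm
  have h2 : Nat.card ψ.range = p := by
    have h3 : ψ.range ≤ rootsOfUnity p ℂ := by
      rintro _ ⟨n, rfl⟩
      rw [mem_rootsOfUnity, ← map_pow]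
      have h4 : n ^ p = 1 := Subtype.ext (h.pow n.1 n.2)
      rw [h4, map_one]
    have h4 : Nat.card (rootsOfUnity p ℂ) = p := Complex.card_rootsOfUnity p
    have h5 : Nat.card ψ.range ∣ p := by
      have h6 := Subgroup.card_dvd_of_le h3
      rwa [h4] at h6
    rcases (Nat.dvd_prime hp.out).mp h5 with h6 | h6
    · exfalso
      apply hψ
      rw [Subgroup.card_eq_one, MonoidHom.range_eq_bot_iff] at h6
      exact h6
    · exact h6
  have h3 := Subgroup.card_mul_index ψ.ker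
  rw [Subgroup.index_ker, h2] at h3
  rw [h1, ← h3, mul_comm]

include h hC in
lemma card_G (hψ : ψ ≠ 1) : Nat.card G = p * Nat.card (DD h ψ C) := by
  rw [card_D h ψ hC, ← hC.card_mul_card, card_ker h ψ hψ]
  ring

/-- powers and `ψ` -/
lemma psi_zpow {n : G} (hn : n ∈ N) (a : ℤ) :
    ψ ⟨n ^ a, N.zpow_mem hn a⟩ = ψ ⟨n, hn⟩ ^ a := by
  have h3 : (⟨n ^ a, N.zpow_mem hn a⟩ : N) = ⟨n, hn⟩ ^ a := rfl
  rw [h3, map_zpow]

include h in
lemma act_zpow {n : G} (hn : n ∈ N) (c : G) (a b : ℤ)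
    (hb : (b : ZMod p) = ((υ c : (ZMod p)ˣ) : ZMod p) * a) : c * n ^ a * c⁻¹ = n ^ b := by
  rw [← _root_.conj_zpow, h.act c n hn, ← zpow_natCast, ← zpow_mul]
  refine h.pow_eq hn ?_
  rw [hb]
  push_cast
  rw [ZMod.natCast_zmod_val]

include hC in
/-- an element outside `N` is conjugate to an element of the complement -/
lemma exists_base {g : G} (hg : g ∉ N) : ∃ n ∈ N, n⁻¹ * g * n ∈ DD h ψ C := by
  obtain ⟨n, hn, c, hc, rfl⟩ := exists_nd hC g
  have hu : υ c ≠ 1 := by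
    intro h1
    apply hg
    have h2 : c ∈ N := by rw [← h.ker]; exact h1
    exact mul_mem hn h2
  have hu' : (1 : ZMod p) - ((υ c : (ZMod p)ˣ) : ZMod p) ≠ 0 := by
    intro h1
    apply hu
    apply Units.ext
    rw [Units.val_one]
    exact (sub_eq_zero.mp h1).symm
  let k : ZMod p := (1 - ((υ c : (ZMod p)ˣ) : ZMod p))⁻¹
  have hk : k * (1 - ((υ c : (ZMod p)ˣ) : ZMod p)) = 1 := inv_mul_cancel₀ hu'
  obtain ⟨a, ha⟩ : ∃ a : ℤ, (a : ZMod p) = k := ⟨k.val, by push_cast; exact ZMod.natCast_zmod_val k⟩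
  obtain ⟨b, hb⟩ : ∃ b : ℤ, (b : ZMod p) = ((υ c : (ZMod p)ˣ) : ZMod p) * a :=
    ⟨(((υ c : (ZMod p)ˣ) : ZMod p) * a).val, by push_cast; exact ZMod.natCast_zmod_val _⟩
  refine ⟨n ^ a, N.zpow_mem hn a, ?_⟩
  have h1 := act_zpow h hn c a b hb
  have h2 : (n ^ a)⁻¹ * (n * c) * n ^ a = n ^ (-a + 1 + b) * c := by
    have h3 : c * n ^ a = n ^ b * c := by rw [← h1]; group
    calc (n ^ a)⁻¹ * (n * c) * n ^ a = (n ^ a)⁻¹ * n * (c * n ^ a) := by group
      _ = n ^ (-a + 1 + b) * c := by rw [h3, zpow_add, zpow_add, zpow_neg, zpow_one]; group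
  have h3 : n ^ (-a + 1 + b) = 1 := by
    rw [← zpow_zero n]
    refine h.pow_eq hn ?_
    push_cast
    rw [hb, ha]
    linear_combination -hk
  rw [h2, h3, one_mul]
  exact C_le h ψ hc

include hC in
/-- the fixed points of an element outside `N` -/
lemma fix_out {g n x : G} (hg : g ∉ N) (hn : n⁻¹ * g * n ∈ DD h ψ C) :
    x⁻¹ * g * x ∈ DD h ψ C ↔ n⁻¹ * x ∈ DD h ψ C := by
  have hN := h.normal
  set d := n⁻¹ * g * n with hd
  have hdN : d ∉ N := by
    intro h1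
    apply hg
    have h2 := hN.conj_mem d h1 n
    have h3 : n * d * n⁻¹ = g := by rw [hd]; group
    rwa [h3] at h2
  have e1 : x⁻¹ * g * x = (n⁻¹ * x)⁻¹ * d * (n⁻¹ * x) := by rw [hd]; group
  rw [e1]
  obtain ⟨y, hy⟩ : ∃ y, y = n⁻¹ * x := ⟨_, rfl⟩
  rw [← hy]
  constructor
  · intro h1
    obtain ⟨m, hm, c, hc, rfl⟩ : ∃ m ∈ N, ∃ c ∈ C, y = m * c := exists_nd hC y
    have hcD : c ∈ DD h ψ C := C_le h ψ hc
    have h2 : m⁻¹ * d * m ∈ DD h ψ C := by
      have h3 := mul_mem (mul_mem hcD h1) (inv_mem hcD)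
      have h4 : c * ((m * c)⁻¹ * d * (m * c)) * c⁻¹ = m⁻¹ * d * m := by group
      rwa [h4] at h3
    have h3 : d⁻¹ * (m⁻¹ * d * m) ∈ DD h ψ C := mul_mem (inv_mem hn) h2
    obtain ⟨b, hb⟩ : ∃ b : ℤ, (b : ZMod p) = ((υ d⁻¹ : (ZMod p)ˣ) : ZMod p) * ((-1 : ℤ) : ZMod p) :=
      ⟨(((υ d⁻¹ : (ZMod p)ˣ) : ZMod p) * ((-1 : ℤ) : ZMod p)).val, by
        push_cast; exact ZMod.natCast_zmod_val _⟩
    have h4 := act_zpow h hm d⁻¹ (-1) b hb
    have h5 : d⁻¹ * (m⁻¹ * d * m) = m ^ (b + 1) := by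
      rw [zpow_add, zpow_one, ← h4]
      group
    rw [h5] at h3
    have h6 := D_inter h ψ hC h3 (N.zpow_mem hm _)
    obtain ⟨_, h7⟩ := (mem_M0 ψ).mp h6
    rw [psi_zpow ψ hm] at h7
    have h8 : ψ ⟨m, hm⟩ ^ p = 1 := by
      rw [← map_pow]
      have h9 : (⟨m, hm⟩ : N) ^ p = 1 := Subtype.ext (h.pow m hm)
      rw [h9, map_one]
    have h9 : ψ ⟨m, hm⟩ = 1 := by
      have h10 : (orderOf (ψ ⟨m, hm⟩) : ℤ) ∣ b + 1 := orderOf_dvd_iff_zpow_eq_one.mpr h7
      have h11 : orderOf (ψ ⟨m, hm⟩) ∣ p := orderOf_dvd_of_pow_eq_one h8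
      rcases (Nat.dvd_prime hp.out).mp h11 with h12 | h12
      · exact orderOf_eq_one_iff.mp h12
      · exfalso
        rw [h12, ← ZMod.intCast_zmod_eq_zero_iff_dvd] at h10
        push_cast at h10 hb
        rw [hb] at h10
        have h13 : ((υ d⁻¹ : (ZMod p)ˣ) : ZMod p) = 1 := by linear_combination -h10
        have h14 : υ d⁻¹ = 1 := Units.ext h13
        apply hdN
        have h15 : d⁻¹ ∈ N := by rw [← h.ker]; exact h14
        exact inv_mem_iff.mp h15
    have h10 : m ∈ M0 ψ := (mem_M0 ψ).mpr ⟨hm, h9⟩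
    exact mul_mem (M0_le h ψ h10) hcD
  · intro h1
    exact mul_mem (mul_mem (inv_mem h1) hn) h1

end D

open Classical in
lemma ind_one [Fintype G] (D : Subgroup G) (g : G) : ind D (fun _ => (1 : ℂ)) g =
    (Nat.card D : ℂ)⁻¹ * (Finset.univ.filter fun x : G => x⁻¹ * g * x ∈ D).card := by
  rw [ind, finsum_eq_sum_of_fintype, Finset.card_filter]
  push_cast
  congr 1

/-- **The character induced from `ψ` is the difference of two permutation characters.** -/
theorem ind_aff (h : Aff p N υ) {ψ : N →* ℂˣ} (hψ : ψ ≠ 1) : ∃ D : Subgroup G, ∀ g : G,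
    ind N (fun n => ((ψ n : ℂˣ) : ℂ)) g + 1 = ind D (fun _ => (1 : ℂ)) g := by
  classical
  have : Fintype G := Fintype.ofFinite G
  have hN := h.normal
  obtain ⟨C, hC⟩ := h.compl
  refine ⟨DD h ψ C, fun g => ?_⟩
  have hcD : (Nat.card (DD h ψ C) : ℂ) ≠ 0 := by exact_mod_cast Nat.card_pos.ne'
  have hcN : (Nat.card N : ℂ) ≠ 0 := by exact_mod_cast Nat.card_pos.ne'
  rw [ind_one]
  by_cases hg : g ∈ N
  · have h1 : ∀ x : G, x⁻¹ * g * x = g ^ ((υ x⁻¹ : (ZMod p)ˣ) : ZMod p).val := by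
      intro x
      have h2 := h.act x⁻¹ g hg
      rwa [inv_inv] at h2
    set w : ℂ := ((ψ ⟨g, hg⟩ : ℂˣ) : ℂ) with hw
    have hwp : w ^ p = 1 := by
      rw [hw, ← Units.val_pow_eq_pow_val, ← map_pow]
      have h9 : (⟨g, hg⟩ : N) ^ p = 1 := Subtype.ext (h.pow g hg)
      rw [h9, map_one, Units.val_one]
    have h2 : ∀ x : G, ext N (fun n => ((ψ n : ℂˣ) : ℂ)) (x⁻¹ * g * x) =
        w ^ ((υ x⁻¹ : (ZMod p)ˣ) : ZMod p).val := by
      intro x
      rw [h1 x, ext, dif_pos (N.pow_mem hg _)]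
      have h3 : (⟨g ^ ((υ x⁻¹ : (ZMod p)ˣ) : ZMod p).val, N.pow_mem hg _⟩ : N) =
        ⟨g, hg⟩ ^ ((υ x⁻¹ : (ZMod p)ˣ) : ZMod p).val := rfl
      rw [h3, map_pow, Units.val_pow_eq_pow_val]
    have h3 : ∑ x : G, w ^ ((υ x⁻¹ : (ZMod p)ˣ) : ZMod p).val =
        (Nat.card N : ℂ) * (if w = 1 then (p : ℂ) - 1 else -1) := by
      rw [Fintype.sum_equiv (Equiv.inv G) (fun x => w ^ ((υ x⁻¹ : (ZMod p)ˣ) : ZMod p).val)
        (fun x => w ^ ((υ x : (ZMod p)ˣ) : ZMod p).val) (fun x => rfl),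
        sum_fib υ h.surj (fun v => w ^ ((v : (ZMod p)ˣ) : ZMod p).val), sum_units hwp, h.ker]
    rw [ind, finsum_eq_sum_of_fintype, Finset.sum_congr rfl fun x _ => h2 x, h3,
      inv_mul_cancel_left₀ hcN]
    by_cases hw1 : w = 1
    · have h4 : (Finset.univ.filter fun x : G => x⁻¹ * g * x ∈ DD h ψ C) = Finset.univ := by
        rw [Finset.filter_true_of_mem]
        intro x _
        have h5 : g ∈ M0 ψ := (mem_M0 ψ).mpr ⟨hg, Units.ext hw1⟩
        have h6 := M0_conj h ψ h5 x⁻¹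
        rw [inv_inv] at h6
        exact M0_le h ψ h6
      rw [h4, Finset.card_univ, ← Nat.card_eq_fintype_card, card_G h ψ hC hψ, if_pos hw1]
      push_cast
      field_simp
      ring
    · have h4 : (Finset.univ.filter fun x : G => x⁻¹ * g * x ∈ DD h ψ C) = ∅ := by
        rw [Finset.filter_false_of_mem]
        intro x _ h5
        apply hw1
        have h6 : x⁻¹ * g * x ∈ N := by
          have := hN.conj_mem g hg x⁻¹
          rwa [inv_inv] at this
        have h7 := M0_conj h ψ (D_inter h ψ hC h5 h6) x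
        have h8 : x * (x⁻¹ * g * x) * x⁻¹ = g := by group
        rw [h8] at h7
        obtain ⟨_, h9⟩ := (mem_M0 ψ).mp h7
        rw [hw, h9, Units.val_one]
      rw [h4, Finset.card_empty, Nat.cast_zero, mul_zero, if_neg hw1]
      ring
  · have h1 : ind N (fun n => ((ψ n : ℂˣ) : ℂ)) g = 0 := by
      rw [ind]
      have h2 : ∀ x : G, ext N (fun n => ((ψ n : ℂˣ) : ℂ)) (x⁻¹ * g * x) = 0 := by
        intro x
        rw [ext, dif_neg]
        intro h3
        apply hg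
        have h4 := hN.conj_mem _ h3 x
        have h5 : x * (x⁻¹ * g * x) * x⁻¹ = g := by group
        rwa [h5] at h4
      simp only [h2, finsum_zero, mul_zero]
    obtain ⟨n, -, hn⟩ := exists_base h ψ hC hg
    have h2 : (Finset.univ.filter fun x : G => x⁻¹ * g * x ∈ DD h ψ C).card =
        Nat.card (DD h ψ C) := by
      rw [← Fintype.card_subtype, ← Nat.card_eq_fintype_card]
      refine Nat.card_congr
        { toFun := fun x => ⟨n⁻¹ * x.1, (fix_out h ψ hC hg hn).mp x.2⟩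
          invFun := fun y => ⟨n * y.1, (fix_out h ψ hC hg hn).mpr
            (by rw [inv_mul_cancel_left]; exact y.2)⟩
          left_inv := fun x => Subtype.ext (mul_inv_cancel_left n x.1)
          right_inv := fun y => Subtype.ext (inv_mul_cancel_left n y.1) }
    rw [h1, h2, inv_mul_cancel₀ hcD, zero_add]

end Run7.h200.BK
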