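import Mathlib
import Pool.Agent.R389.Defs
import Pool.Agent.Run7.h200.SP.Perm

/-!
# The characters of the symmetric groups are integral combinations of permutation characters
-/

set_option autoImplicit false
set_option linter.unusedSectionVars false

namespace Run7.h200.BK

open Pool.Agent.R389 Function Equiv Finset
open scoped Classical

noncomputable section

variable {n : ℕ} {I : Type}

lemma ai (g : Perm (Fin n)) (x : Fin n) : g (g⁻¹ x) = x := Equiv.apply_symm_apply g x

lemma ia (g : Perm (Fin n)) (x : Fin n) : g⁻¹ (g x) = x := Equiv.symm_apply_apply g x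

/-- the permutations which preserve the colouring -/
def Yg (c : Fin n → I) : Subgroup (Perm (Fin n)) where
  carrier := {σ | ∀ i, c (σ i) = c i}
  mul_mem' := by
    intro σ τ h2 h4 w
    rw [Perm.mul_apply, h2, h4]
  one_mem' := fun _ => rfl
  inv_mem' := by
    intro σ h w
    have h1 := h (σ⁻¹ w)
    rw [ai] at h1
    exact h1.symm

lemma mem_Yg {c : Fin n → I} {σ : Perm (Fin n)} : σ ∈ Yg c ↔ ∀ i, c (σ i) = c i := Iff.rfl

/-- the sign as a complex number -/
def sgn (g : Perm (Fin n)) : ℂ := ((Perm.sign g : ℤ) : ℂ)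

lemma sgn_one : sgn (1 : Perm (Fin n)) = 1 := by simp [sgn]

lemma sgn_mul (g h : Perm (Fin n)) : sgn (g * h) = sgn g * sgn h := by simp [sgn]

lemma sgn_sq (g : Perm (Fin n)) : sgn g * sgn g = 1 := by
  rw [sgn]
  rcases Int.units_eq_one_or (Perm.sign g) with h | h <;> rw [h] <;> norm_num

lemma sgn_conj (g x : Perm (Fin n)) : sgn (x⁻¹ * g * x) = sgn g := by
  rw [sgn_mul, sgn_mul, mul_comm, ← mul_assoc, ← sgn_mul, mul_inv_cancel, sgn_one, one_mul]

/-- the sum of the signs -/
lemma sum_sgn (b : Fin n → I) : ∑ g ∈ univ.filter (fun g : Perm (Fin n) => g ∈ Yg b), sgn g =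
    if Injective b then 1 else 0 := by
  split_ifs with h
  · have h1 : univ.filter (fun g : Perm (Fin n) => g ∈ Yg b) = {1} := by
      ext g
      rw [mem_filter, mem_singleton]
      constructor
      · rintro ⟨-, h2⟩
        ext i
        rw [h (h2 i)]
        rfl
      · rintro rfl
        exact ⟨mem_univ _, one_mem _⟩
    rw [h1, sum_singleton, sgn_one]
  · unfold Injective at h
    push Not at h
    obtain ⟨i, j, hij, hne⟩ := h
    have hs : swap i j ∈ Yg b := by
      intro k
      rw [swap_apply_def]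
      split_ifs with h1 h2
      · rw [h1, hij]
      · rw [h2, hij]
      · rfl
    have h1 : ∑ g ∈ univ.filter (fun g : Perm (Fin n) => g ∈ Yg b), sgn g =
        ∑ g ∈ univ.filter (fun g : Perm (Fin n) => g ∈ Yg b), sgn (swap i j * g) := by
      refine sum_bij' (fun g _ => swap i j * g) (fun g _ => swap i j * g) ?_ ?_ ?_ ?_ ?_
      · intro g hg
        rw [mem_filter] at hg ⊢
        exact ⟨mem_univ _, mul_mem hs hg.2⟩
      · intro g hg
        rw [mem_filter] at hg ⊢
        exact ⟨mem_univ _, mul_mem hs hg.2⟩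
      · intro g _
        rw [← mul_assoc, swap_mul_self, one_mul]
      · intro g _
        rw [← mul_assoc, swap_mul_self, one_mul]
      · intro g _
        rw [← mul_assoc, swap_mul_self, one_mul]
    have h2 : ∀ g : Perm (Fin n), sgn (swap i j * g) = - sgn g := by
      intro g
      rw [sgn_mul, sgn, Perm.sign_swap hne]
      norm_num
    rw [Finset.sum_congr rfl fun g _ => h2 g, sum_neg_distrib] at h1
    exact self_eq_neg.mp h1

/-- the mean over the group of a colouring -/
def mn (f : Perm (Fin n) → ℂ) (c : Fin n → I) : ℂ :=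
  (Nat.card (Yg c) : ℂ)⁻¹ * ∑ g ∈ univ.filter (fun g : Perm (Fin n) => g ∈ Yg c), f g

/-- the number of the permutations `h` for which `(c, q ∘ h)` is injective -/
def ci (c : Fin n → I) (q : Fin n → ℕ) : ℕ :=
  (univ.filter fun h : Perm (Fin n) => Injective fun i => (c i, q (h i))).card

/-- the character induced from the sign -/
def Nq (q : Fin n → ℕ) : Perm (Fin n) → ℂ := ind (Yg q) (fun h => sgn h.1)

lemma mn_Nq (c : Fin n → I) (q : Fin n → ℕ) :
    mn (Nq q) c = (Nat.card (Yg c) : ℂ)⁻¹ * ((Nat.card (Yg q) : ℂ)⁻¹ * (ci c q : ℂ)) := by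
  unfold mn
  congr 1
  have h1 : ∀ g : Perm (Fin n), Nq q g = (Nat.card (Yg q) : ℂ)⁻¹ *
      ∑ x : Perm (Fin n), if x⁻¹ * g * x ∈ Yg q then sgn g else 0 := by
    intro g
    rw [Nq, ind, finsum_eq_sum_of_fintype]
    congr 1
    refine sum_congr rfl fun x _ => ?_
    rw [Pool.Agent.R389.ext]
    split_ifs with h
    · exact sgn_conj g x
    · rfl
  rw [sum_congr rfl fun g _ => h1 g, ← mul_sum, sum_comm]
  congr 1
  have h2 : ∀ x : Perm (Fin n), ∑ g ∈ univ.filter (fun g : Perm (Fin n) => g ∈ Yg c),
      (if x⁻¹ * g * x ∈ Yg q then sgn g else 0) =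
      if Injective (fun i => (c i, q (x⁻¹ i))) then 1 else 0 := by
    intro x
    rw [← sum_filter, filter_filter]
    have h3 := sum_sgn (fun i => (c i, q (x⁻¹ i)))
    refine Eq.trans (sum_congr ?_ fun _ _ => rfl) (h3.trans (by congr))
    ext g
    rw [mem_filter, mem_filter]
    refine and_congr_right fun _ => ?_
    rw [mem_Yg, mem_Yg, mem_Yg]
    constructor
    · rintro ⟨h3, h4⟩ i
      have h5 := h4 (x⁻¹ i)
      rw [Perm.mul_apply, Perm.mul_apply, ai] at h5
      exact Prod.ext (h3 i) h5
    · intro h3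
      refine ⟨fun i => congrArg Prod.fst (h3 i), fun i => ?_⟩
      have h4 := congrArg Prod.snd (h3 (x i))
      simp only [ia] at h4
      rw [Perm.mul_apply, Perm.mul_apply]
      exact h4
  rw [sum_congr rfl fun x _ => h2 x, ci, card_filter]
  push_cast
  exact Fintype.sum_equiv (Equiv.inv _) _ _ fun x => rfl

/-! ### The sum of the second colour -/

/-- the number of the pairs of the same colour -/
def Ph (c : Fin n → I) : ℕ := ∑ x, (univ.filter fun y => c y = c x).card

/-- the number of the points of the same class with smaller second colour -/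
def lo (c : Fin n → I) (q : Fin n → ℕ) (x : Fin n) : ℕ :=
  (univ.filter fun y => c y = c x ∧ q y < q x).card

lemma lo_le {c : Fin n → I} {q : Fin n → ℕ} (h : Injective fun i => (c i, q i)) (x : Fin n) :
    lo c q x ≤ q x := by
  have h1 : (univ.filter fun y => c y = c x ∧ q y < q x).card ≤ (range (q x)).card := by
    refine card_le_card_of_injOn q ?_ ?_
    · intro y hy
      rw [mem_coe, mem_filter] at hy
      exact mem_coe.mpr (mem_range.mpr hy.2.2)
    · intro y hy z hz hyz
      rw [mem_coe, mem_filter] at hy hz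
      exact h (Prod.ext (hy.2.1.trans hz.2.1.symm) hyz)
  rwa [card_range] at h1

lemma two_lo {c : Fin n → I} {q : Fin n → ℕ} (h : Injective fun i => (c i, q i)) :
    2 * ∑ x, lo c q x + n = Ph c := by
  have h1 : ∀ x, (univ.filter fun y => c y = c x).card = lo c q x +
      (univ.filter fun y => c y = c x ∧ q x < q y).card + 1 := by
    intro x
    have h2 : (univ.filter fun y => c y = c x) = ((univ.filter fun y => c y = c x ∧ q y < q x) ∪
        (univ.filter fun y => c y = c x ∧ q x < q y)) ∪ {x} := by
      ext y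
      simp only [mem_filter, mem_univ, true_and, mem_union, mem_singleton]
      constructor
      · intro h3
        rcases lt_trichotomy (q y) (q x) with h4 | h4 | h4
        · exact Or.inl (Or.inl ⟨h3, h4⟩)
        · exact Or.inr (h (Prod.ext h3 h4))
        · exact Or.inl (Or.inr ⟨h3, h4⟩)
      · rintro ((h3 | h3) | h3)
        · exact h3.1
        · exact h3.1
        · rw [h3]
    rw [h2, card_union_of_disjoint, card_union_of_disjoint, card_singleton]
    · rfl
    · rw [disjoint_left]
      intro y hy hy'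
      rw [mem_filter] at hy hy'
      exact lt_asymm hy.2.2 hy'.2.2
    · rw [disjoint_singleton_right, mem_union, mem_filter, mem_filter]
      rintro (h3 | h3)
      · exact lt_irrefl _ h3.2.2
      · exact lt_irrefl _ h3.2.2
  have h2 : ∑ x, (univ.filter fun y => c y = c x ∧ q x < q y).card = ∑ x, lo c q x := by
    unfold lo
    simp only [card_filter]
    rw [sum_comm]
    refine sum_congr rfl fun x _ => sum_congr rfl fun y _ => ?_
    congr 1
    exact propext ⟨fun h3 => ⟨h3.1.symm, h3.2⟩, fun h3 => ⟨h3.1.symm, h3.2⟩⟩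
  unfold Ph
  rw [sum_congr rfl fun x _ => h1 x, sum_add_distrib, sum_add_distrib, h2]
  simp
  ring

/-- the second colour numbers the classes of the first -/
def Std (c : Fin n → I) (q : Fin n → ℕ) : Prop :=
  (Injective fun i => (c i, q i)) ∧ ∀ x, lo c q x = q x

lemma Std.sum {c : Fin n → I} {q : Fin n → ℕ} (h : Std c q) : 2 * ∑ x, q x + n = Ph c := by
  rw [← two_lo h.1, sum_congr rfl fun x _ => h.2 x]

lemma ph_le {J : Type} {c : Fin n → I} {q : Fin n → ℕ} (h : Std c q) {c' : Fin n → J}
    {q' : Fin n → ℕ} (h' : Injective fun i => (c' i, q' i)) (hs : ∑ x, q' x = ∑ x, q x) :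
    Ph c' ≤ Ph c := by
  rw [← h.sum, ← two_lo h', ← hs]
  have := Finset.sum_le_sum (fun x (_ : x ∈ (univ : Finset (Fin n))) => lo_le h' x)
  omega

lemma std_of {J : Type} {c : Fin n → I} {q : Fin n → ℕ} (h : Std c q) {c' : Fin n → J}
    {q' : Fin n → ℕ} (h' : Injective fun i => (c' i, q' i)) (hs : ∑ x, q' x = ∑ x, q x)
    (hP : Ph c' = Ph c) : Std c' q' := by
  refine ⟨h', fun x => ?_⟩
  rw [← h.sum, ← two_lo h', ← hs] at hP
  have h1 : ∑ x, lo c' q' x = ∑ x, q' x := by omega
  exact (Finset.sum_eq_sum_iff_of_le (fun x _ => lo_le h' x)).mp h1 x (mem_univ x)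

lemma exists_std (c : Fin n → I) : ∃ q, Std c q := by
  let q : Fin n → ℕ := fun x => (univ.filter fun y => c y = c x ∧ y < x).card
  have h1 : ∀ x y, c x = c y → x < y → q x < q y := by
    intro x y hc hxy
    refine card_lt_card ?_
    rw [ssubset_iff_of_subset]
    · refine ⟨x, ?_, ?_⟩
      · rw [mem_filter]
        exact ⟨mem_univ _, hc, hxy⟩
      · rw [mem_filter]
        exact fun h => lt_irrefl _ h.2.2
    · intro z hz
      rw [mem_filter] at hz ⊢
      exact ⟨mem_univ _, hz.2.1.trans hc, hz.2.2.trans hxy⟩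
  have h2 : ∀ x y, c x = c y → (q x < q y ↔ x < y) := by
    intro x y hc
    refine ⟨fun h => ?_, h1 x y hc⟩
    rcases lt_trichotomy x y with h3 | h3 | h3
    · exact h3
    · rw [h3] at h
      exact absurd h (lt_irrefl _)
    · exact absurd h (lt_asymm (h1 y x hc.symm h3))
  refine ⟨q, fun x y h => ?_, fun x => ?_⟩
  · have h3 : c x = c y := congrArg Prod.fst h
    have h4 : q x = q y := congrArg Prod.snd h
    rcases lt_trichotomy x y with h5 | h5 | h5
    · exact absurd h4 (h1 x y h3 h5).ne
    · exact h5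
    · exact absurd h4.symm (h1 y x h3.symm h5).ne
  · change (univ.filter fun y => c y = c x ∧ q y < q x).card =
      (univ.filter fun y => c y = c x ∧ y < x).card
    congr 1
    ext y
    rw [mem_filter, mem_filter]
    refine and_congr_right fun _ => and_congr_right fun h => h2 y x h

lemma Std.lt {c : Fin n → I} {q : Fin n → ℕ} (h : Std c q) (x : Fin n) :
    q x < (univ.filter fun y => c y = c x).card := by
  have h1 := h.2 x
  rw [lo] at h1
  rw [← h1]
  refine card_lt_card ?_
  rw [ssubset_iff_of_subset]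
  · refine ⟨x, ?_, ?_⟩
    · rw [mem_filter]
      exact ⟨mem_univ _, rfl⟩
    · rw [mem_filter]
      exact fun h => by
        have h3 := h.2.2
        omega
  · intro z hz
    rw [mem_filter] at hz ⊢
    exact ⟨mem_univ _, hz.2.1⟩

lemma Std.exists {c : Fin n → I} {q : Fin n → ℕ} (h : Std c q) (x : Fin n) {j : ℕ}
    (hj : j < (univ.filter fun y => c y = c x).card) : ∃ y, c y = c x ∧ q y = j := by
  have h1 : (univ.filter fun y => c y = c x).image q =
      range (univ.filter fun y => c y = c x).card := by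
    refine eq_of_subset_of_card_le ?_ ?_
    · intro j hj
      rw [mem_image] at hj
      obtain ⟨y, hy, rfl⟩ := hj
      rw [mem_filter] at hy
      rw [mem_range, ← hy.2]
      exact h.lt y
    · rw [card_range, card_image_of_injOn]
      intro y hy z hz hyz
      rw [mem_coe, mem_filter] at hy hz
      exact h.1 (Prod.ext (hy.2.trans hz.2.symm) hyz)
  have h2 : j ∈ (univ.filter fun y => c y = c x).image q := by
    rw [h1, mem_range]
    exact hj
  rw [mem_image] at h2
  obtain ⟨y, hy, h3⟩ := h2
  exact ⟨y, (mem_filter.mp hy).2, h3⟩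

/-- the number for the standard second colour -/
lemma ci_std {c : Fin n → I} {q : Fin n → ℕ} (h : Std c q) :
    ci c q = Nat.card (Yg c) * Nat.card (Yg q) := by
  rw [ci, ← Fintype.card_subtype, ← Nat.card_eq_fintype_card, ← Nat.card_prod]
  symm
  have h0 : ∀ (a : Yg q) (k : Yg c), Injective fun i => (c i, q (((a : Perm (Fin n)) * k) i)) := by
    intro a k x y hxy
    have h1 : c x = c y := congrArg Prod.fst hxy
    have h2 : q (((a : Perm (Fin n)) * k) x) = q (((a : Perm (Fin n)) * k) y) :=
      congrArg Prod.snd hxy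
    rw [Perm.mul_apply, Perm.mul_apply, a.2, a.2] at h2
    have h3 : (k : Perm (Fin n)) x = (k : Perm (Fin n)) y :=
      h.1 (Prod.ext ((k.2 x).trans (h1.trans (k.2 y).symm)) h2)
    exact (k : Perm (Fin n)).injective h3
  refine Nat.card_congr (Equiv.ofBijective (fun x : Yg c × Yg q =>
    (⟨(x.2 : Perm (Fin n)) * x.1, h0 x.2 x.1⟩ :
      {h : Perm (Fin n) // Injective fun i => (c i, q (h i))})) ⟨?_, ?_⟩)
  · rintro ⟨k, a⟩ ⟨k', a'⟩ hh
    have h1 : (a : Perm (Fin n)) * k = a' * k' := congrArg Subtype.val hh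
    have h2 : (k : Perm (Fin n)) = k' := by
      ext x
      congr 1
      apply h.1
      refine Prod.ext ((k.2 x).trans (k'.2 x).symm) ?_
      change q ((k : Perm (Fin n)) x) = q ((k' : Perm (Fin n)) x)
      rw [← a.2 ((k : Perm (Fin n)) x), ← a'.2 ((k' : Perm (Fin n)) x)]
      exact congrArg q (DFunLike.congr_fun h1 x)
    have h3 : (a : Perm (Fin n)) = a' := by
      rw [h2] at h1
      exact mul_right_cancel h1
    exact Prod.ext (Subtype.ext h2) (Subtype.ext h3)
  · rintro ⟨g, hg⟩
    have hs : Std c (fun i => q (g i)) := std_of h hg (Equiv.sum_comp g q) rfl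
    have h1 : ∀ x, ∃ y, c y = c x ∧ q y = q (g x) := fun x => h.exists x (hs.lt x)
    choose k hk using h1
    have hinj : Injective k := by
      intro x y hxy
      refine hg (Prod.ext ?_ ?_)
      · change c x = c y
        rw [← (hk x).1, ← (hk y).1, hxy]
      · change q (g x) = q (g y)
        rw [← (hk x).2, ← (hk y).2, hxy]
    let k' : Perm (Fin n) := Equiv.ofBijective k (Finite.injective_iff_bijective.mp hinj)
    have hk' : ∀ x, k' x = k x := fun x => rfl
    have e1 : k' ∈ Yg c := fun x => (hk x).1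
    have e2 : g * k'⁻¹ ∈ Yg q := by
      intro y
      rw [Perm.mul_apply, ← (hk (k'⁻¹ y)).2, ← hk', ai]
    refine ⟨(⟨k', e1⟩, ⟨g * k'⁻¹, e2⟩), Subtype.ext ?_⟩
    change g * k'⁻¹ * k' = g
    rw [inv_mul_cancel_right]

/-- equivalent colourings -/
def Eqv {J : Type} (c' : Fin n → J) (c : Fin n → I) : Prop :=
  ∃ π : Perm (Fin n), ∀ x y, c' x = c' y ↔ c (π x) = c (π y)

lemma exists_perm_of_fib {X : Type} [Fintype X] (s t : X → ℕ)
    (h : ∀ m, (univ.filter fun x => s x = m).card = (univ.filter fun x => t x = m).card) :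
    ∃ β : Perm X, ∀ x, s (β x) = t x := by
  have h1 : ∀ m, Nonempty ({x // t x = m} ≃ {x // s x = m}) := by
    intro m
    refine ⟨Fintype.equivOfCardEq ?_⟩
    rw [Fintype.card_subtype, Fintype.card_subtype]
    exact (h m).symm
  refine ⟨(Equiv.sigmaFiberEquiv t).symm.trans ((Equiv.sigmaCongrRight fun m => (h1 m).some).trans
    (Equiv.sigmaFiberEquiv s)), fun x => ?_⟩
  exact ((h1 (t x)).some ⟨x, rfl⟩).2

/-- two colourings with the same standard second colour are equivalent -/
lemma eqv_of_std {J : Type} {c : Fin n → I} {d : Fin n → J} {q : Fin n → ℕ} (h : Std c q)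
    (h' : Std d q) : Eqv d c := by
  -- the leaders
  let X := {x : Fin n // q x = 0}
  have hlead : ∀ {K : Type} {b : Fin n → K}, Std b q → ∀ x, ∃ y : X, b y = b x := by
    intro K b hb x
    obtain ⟨y, h1, h2⟩ := hb.exists x (j := 0) (card_pos.mpr ⟨x, by simp⟩)
    exact ⟨⟨y, h2⟩, h1⟩
  have huniq : ∀ {K : Type} {b : Fin n → K}, Std b q → ∀ x y : X, b x = b y → x = y := by
    intro K b hb x y hxy
    exact Subtype.ext (hb.1 (Prod.ext hxy (x.2.trans y.2.symm)))
  have hcount : ∀ {K : Type} {b : Fin n → K}, Std b q → ∀ j,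
      (univ.filter fun x : X => j < (univ.filter fun y => b y = b x).card).card =
        (univ.filter fun y => q y = j).card := by
    intro K b hb j
    have h1 : ∀ x : X, j < (univ.filter fun y => b y = b x).card → ∃ y, b y = b x ∧ q y = j :=
      fun x hx => hb.exists x hx
    choose f hf using h1
    refine card_bij (fun x hx => f x (mem_filter.mp hx).2) ?_ ?_ ?_
    · intro x hx
      rw [mem_filter]
      exact ⟨mem_univ _, (hf x (mem_filter.mp hx).2).2⟩
    · intro x hx y hy hxy
      refine huniq hb x y ?_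
      rw [← (hf x (mem_filter.mp hx).2).1, ← (hf y (mem_filter.mp hy).2).1, hxy]
    · intro y hy
      rw [mem_filter] at hy
      obtain ⟨x, hx⟩ := hlead hb y
      have h2 : j < (univ.filter fun z => b z = b x).card := by
        rw [hx, ← hy.2]
        exact hb.lt y
      refine ⟨x, mem_filter.mpr ⟨mem_univ _, h2⟩, ?_⟩
      refine hb.1 (Prod.ext ((hf x h2).1.trans hx) ?_)
      exact (hf x h2).2.trans hy.2.symm
  have heq : ∀ {K : Type} {b : Fin n → K}, Std b q → ∀ m,
      (univ.filter fun x : X => (univ.filter fun y => b y = b x).card = m + 1).card =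
        (univ.filter fun y => q y = m).card - (univ.filter fun y => q y = m + 1).card := by
    intro K b hb m
    rw [← hcount hb m, ← hcount hb (m + 1), ← card_sdiff_of_subset]
    · congr 1
      ext x
      simp only [mem_filter, mem_univ, true_and, mem_sdiff]
      omega
    · intro x hx
      simp only [mem_filter, mem_univ, true_and] at hx ⊢
      omega
  obtain ⟨β, hβ⟩ := exists_perm_of_fib (X := X) (fun x => (univ.filter fun y => c y = c x).card)
    (fun x => (univ.filter fun y => d y = d x).card) (by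
      intro m
      cases m with
      | zero =>
        have h1 : ∀ {K : Type} (b : Fin n → K),
            (univ.filter fun x : X => (univ.filter fun y => b y = b x).card = 0) = ∅ := by
          intro K b
          rw [filter_eq_empty_iff]
          intro x _ h1
          rw [card_eq_zero] at h1
          have h2 : x.1 ∈ (univ.filter fun y => b y = b x) := by simp
          rw [h1] at h2
          exact notMem_empty _ h2
        rw [h1 c, h1 d]
      | succ m => rw [heq h, heq h'])
  choose ℓ hℓ using hlead h'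
  have h1 : ∀ x, ∃ y, c y = c (β (ℓ x)) ∧ q y = q x := by
    intro x
    refine h.exists _ ?_
    have h2 := hβ (ℓ x)
    beta_reduce at h2
    rw [h2, hℓ x]
    exact h'.lt x
  choose f hf using h1
  have hinj : Injective f := by
    intro x y hxy
    have h2 : β (ℓ x) = β (ℓ y) := huniq h _ _ (by rw [← (hf x).1, ← (hf y).1, hxy])
    have h3 := β.injective h2
    refine h'.1 (Prod.ext ?_ ?_)
    · change d x = d y
      rw [← hℓ x, ← hℓ y, h3]
    · change q x = q y
      rw [← (hf x).2, ← (hf y).2, hxy]
  refine ⟨Equiv.ofBijective f (Finite.injective_iff_bijective.mp hinj), fun x y => ?_⟩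
  change _ ↔ c (f x) = c (f y)
  rw [(hf x).1, (hf y).1]
  constructor
  · intro h2
    have h3 : ℓ x = ℓ y := huniq h' _ _ (by rw [hℓ, hℓ, h2])
    rw [h3]
  · intro h2
    have h3 := β.injective (huniq h _ _ h2)
    rw [← hℓ x, ← hℓ y, h3]

/-- **Triangularity.** -/
theorem ci_ne {J : Type} {c : Fin n → I} {q : Fin n → ℕ} (h : Std c q) {c' : Fin n → J}
    (hc : ci c' q ≠ 0) : Ph c' ≤ Ph c ∧ (Ph c' = Ph c → Eqv c' c) := by
  rw [ci, card_ne_zero] at hc
  obtain ⟨g, hg⟩ := hc
  rw [mem_filter] at hg
  have hs : ∑ x, q (g x) = ∑ x, q x := Equiv.sum_comp g q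
  refine ⟨ph_le h hg.2 hs, fun hP => ?_⟩
  have h1 := std_of h hg.2 hs hP
  have h2 : Injective fun i => ((fun x => c' (g⁻¹ x)) i, q i) := by
    intro x y hxy
    have e1 : c' (g⁻¹ x) = c' (g⁻¹ y) := congrArg Prod.fst hxy
    have e2 : q x = q y := congrArg Prod.snd hxy
    refine g⁻¹.injective (hg.2 (Prod.ext e1 ?_))
    change q (g (g⁻¹ x)) = q (g (g⁻¹ y))
    rw [ai, ai, e2]
  have h3 : Ph (fun x => c' (g⁻¹ x)) = Ph c' := by
    unfold Ph
    rw [← Equiv.sum_comp g]
    refine sum_congr rfl fun x _ => ?_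
    beta_reduce
    rw [ia]
    refine card_bij' (fun y _ => g⁻¹ y) (fun y _ => g y) ?_ ?_ ?_ ?_
    · intro y hy
      simp only [mem_filter, mem_univ, true_and] at hy ⊢
      exact hy
    · intro y hy
      simp only [mem_filter, mem_univ, true_and] at hy ⊢
      rw [ia]
      exact hy
    · intro y _
      exact ai g y
    · intro y _
      exact ia g y
  have h4 := std_of h h2 rfl (h3.trans hP)
  obtain ⟨π, hπ⟩ := eqv_of_std h h4
  refine ⟨π * g, fun x y => ?_⟩
  have h5 := hπ (g x) (g y)
  beta_reduce at h5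
  rw [ia, ia] at h5
  exact h5

end

end Run7.h200.BK
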