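import Mathlib
import Pool.Agent.Run7.h200.BK.Sn
import Pool.Agent.K4H74.ST.Inv
import Pool.Agent.K4H74.SC.Wrap

/-!
# The characters of the symmetric groups: the main theorem
-/

set_option autoImplicit false
set_option linter.unusedSectionVars false

namespace Run7.h200.BK

open Pool.Agent.R389 Function Equiv Finset
open Run7.h200.SP (same_nat same_of_nat pow_eq_pow_iff per_pos)
open Pool.Agent.K4H74.ST (IsChar)
open scoped Classical

noncomputable section

variable {n : ℕ} {I : Type}

/-- `f` is a class function -/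
def Cl (f : Perm (Fin n) → ℂ) : Prop := ∀ g x, f (x * g * x⁻¹) = f g

lemma eqv_mem {J : Type} {c' : Fin n → J} {c : Fin n → I} {π : Perm (Fin n)}
    (h : ∀ x y, c' x = c' y ↔ c (π x) = c (π y)) (g : Perm (Fin n)) :
    g ∈ Yg c' ↔ π * g * π⁻¹ ∈ Yg c := by
  rw [mem_Yg, mem_Yg]
  constructor
  · intro h1 i
    have h2 := (h (g (π⁻¹ i)) (π⁻¹ i)).mp (h1 _)
    rw [ai] at h2
    exact h2
  · intro h1 i
    rw [h]
    have h2 := h1 (π i)
    rw [Perm.mul_apply, Perm.mul_apply, ia] at h2
    exact h2

lemma mn_eqv {J : Type} {c' : Fin n → J} {c : Fin n → I} (h : Eqv c' c) {f : Perm (Fin n) → ℂ}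
    (hf : Cl f) : mn f c' = mn f c := by
  obtain ⟨π, hπ⟩ := h
  have h1 := eqv_mem hπ
  have h2 : ∀ g, g ∈ Yg c → π⁻¹ * g * π ∈ Yg c' := by
    intro g hg
    rw [h1]
    have e1 : π * (π⁻¹ * g * π) * π⁻¹ = g := by group
    rwa [e1]
  have hcard : Nat.card (Yg c') = Nat.card (Yg c) := by
    refine Nat.card_congr
      { toFun := fun g => ⟨π * g.1 * π⁻¹, (h1 g.1).mp g.2⟩
        invFun := fun g => ⟨π⁻¹ * g.1 * π, h2 g.1 g.2⟩
        left_inv := fun g => Subtype.ext (by
          change π⁻¹ * (π * g.1 * π⁻¹) * π = g.1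
          group)
        right_inv := fun g => Subtype.ext (by
          change π * (π⁻¹ * g.1 * π) * π⁻¹ = g.1
          group) }
  rw [mn, mn, hcard]
  congr 1
  refine sum_bij' (fun g _ => π * g * π⁻¹) (fun g _ => π⁻¹ * g * π) ?_ ?_ ?_ ?_ ?_
  · intro g hg
    rw [mem_filter] at hg ⊢
    exact ⟨mem_univ _, (h1 g).mp hg.2⟩
  · intro g hg
    rw [mem_filter] at hg ⊢
    exact ⟨mem_univ _, h2 g hg.2⟩
  · intro g _
    group
  · intro g _
    group
  · intro g _
    exact (hf g π).symm

lemma ph_eqv {J : Type} {c' : Fin n → J} {c : Fin n → I} (h : Eqv c' c) : Ph c' = Ph c := by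
  obtain ⟨π, hπ⟩ := h
  unfold Ph
  rw [← Equiv.sum_comp π (fun x => (univ.filter fun y => c y = c x).card)]
  refine sum_congr rfl fun x _ => ?_
  refine card_bij' (fun y _ => π y) (fun y _ => π⁻¹ y) ?_ ?_ ?_ ?_
  · intro y hy
    rw [mem_filter] at hy ⊢
    exact ⟨mem_univ _, (hπ y x).mp hy.2⟩
  · intro y hy
    rw [mem_filter] at hy ⊢
    refine ⟨mem_univ _, (hπ _ x).mpr ?_⟩
    rw [ai]
    exact hy.2
  · intro y _
    exact ia π y
  · intro y _
    exact ai π y

/-- `Eqv` as an equivalence relation -/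
def eqS : Setoid (Fin n → Fin n) where
  r c' c := Eqv c' c
  iseqv := by
    refine ⟨fun c => ⟨1, fun x y => Iff.rfl⟩, ?_, ?_⟩
    · rintro c c' ⟨π, hπ⟩
      refine ⟨π⁻¹, fun x y => ?_⟩
      rw [hπ, ai, ai]
    · rintro c c' c'' ⟨π, hπ⟩ ⟨π', hπ'⟩
      refine ⟨π' * π, fun x y => ?_⟩
      rw [hπ, hπ']
      rfl

/-! ### The vanishing theorem -/

/-- the colouring by the cycles -/
def col (g : Perm (Fin n)) : Fin n → Fin n := fun x => (Quotient.mk (Perm.SameCycle.setoid g) x).out

lemma col_iff (g : Perm (Fin n)) (x y : Fin n) : col g x = col g y ↔ g.SameCycle x y := by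
  unfold col
  constructor
  · intro h
    have h1 : g.SameCycle (Quotient.mk (Perm.SameCycle.setoid g) x).out x :=
      Quotient.mk_out (s := Perm.SameCycle.setoid g) x
    have h2 : g.SameCycle (Quotient.mk (Perm.SameCycle.setoid g) y).out y :=
      Quotient.mk_out (s := Perm.SameCycle.setoid g) y
    rw [h] at h1
    exact h1.symm.trans h2
  · intro h
    rw [Quotient.sound (s := Perm.SameCycle.setoid g) h]

lemma per_card (h : Perm (Fin n)) (x : Fin n) :
    (univ.filter fun y => h.SameCycle x y).card = minimalPeriod h x := by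
  have h1 : (range (minimalPeriod h x)).card = (univ.filter fun y => h.SameCycle x y).card := by
    refine card_bij (fun i _ => (h ^ i) x) ?_ ?_ ?_
    · intro i _
      rw [mem_filter]
      exact ⟨mem_univ _, same_of_nat rfl⟩
    · intro i hi j hj hij
      rw [pow_eq_pow_iff] at hij
      have h3 := Int.natCast_modEq_iff.mp hij
      exact Nat.ModEq.eq_of_lt_of_lt h3 (mem_range.mp hi) (mem_range.mp hj)
    · intro y hy
      obtain ⟨k, rfl⟩ := same_nat (mem_filter.mp hy).2
      refine ⟨k % minimalPeriod h x, mem_range.mpr (Nat.mod_lt _ (per_pos h x)), ?_⟩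
      exact (pow_eq_pow_iff h x _ _).mpr (by exact_mod_cast Nat.mod_modEq k _)
  rw [← h1, card_range]

/-- permutations with the same cycles (as sets) are conjugate -/
lemma conj_of_same {h g : Perm (Fin n)} (hs : ∀ x y, h.SameCycle x y ↔ g.SameCycle x y) :
    ∃ t : Perm (Fin n), t * h * t⁻¹ = g := by
  have hper : ∀ x, minimalPeriod h x = minimalPeriod g x := by
    intro x
    rw [← per_card, ← per_card]
    congr 1
    ext y
    rw [mem_filter, mem_filter, hs]
  let b : Fin n → Fin n := col h
  have hb : ∀ x, h.SameCycle (b x) x := fun x =>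
    Quotient.mk_out (s := Perm.SameCycle.setoid h) x
  have hbe : ∀ x y, h.SameCycle x y → b x = b y := fun x y hxy => (col_iff h x y).mpr hxy
  have h1 : ∀ x, ∃ i : ℕ, (h ^ i) (b x) = x := fun x => same_nat (hb x)
  choose i hi using h1
  let f : Fin n → Fin n := fun x => (g ^ i x) (b x)
  have hinj : Injective f := by
    intro x y hxy
    have e1 : h.SameCycle (b x) (b y) := by
      rw [hs]
      have e2 : g.SameCycle (b x) (f x) := same_of_nat rfl
      have e3 : g.SameCycle (b y) (f y) := same_of_nat rfl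
      rw [hxy] at e2
      exact e2.trans e3.symm
    have e4 : b x = b y := hbe x y ((hb x).symm.trans (e1.trans (hb y)))
    have e5 : (g ^ i x) (b x) = (g ^ i y) (b x) := by
      have := hxy
      change (g ^ i x) (b x) = (g ^ i y) (b y) at this
      rwa [← e4] at this
    rw [pow_eq_pow_iff, ← hper] at e5
    have e7 := (pow_eq_pow_iff h (b x) (i x) (i y)).mpr e5
    rw [hi x, e4, hi y] at e7
    exact e7
  have hcomm : ∀ x, f (h x) = g (f x) := by
    intro x
    have e1 : b (h x) = b x := hbe _ _ (Perm.SameCycle.symm ⟨1, by simp⟩)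
    have e2 := hi (h x)
    rw [e1] at e2
    have e3 : (h ^ (i x + 1)) (b x) = h x := by rw [pow_succ', Perm.mul_apply, hi]
    have e6 := (pow_eq_pow_iff h (b x) (i (h x)) (i x + 1)).mp (e2.trans e3.symm)
    rw [hper] at e6
    change (g ^ i (h x)) (b (h x)) = g ((g ^ i x) (b x))
    rw [e1, (pow_eq_pow_iff g (b x) _ _).mpr e6, pow_succ', Perm.mul_apply]
  let t : Perm (Fin n) := Equiv.ofBijective f (Finite.injective_iff_bijective.mp hinj)
  refine ⟨t, ?_⟩
  ext y
  obtain ⟨x, rfl⟩ := t.surjective y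
  change ((t (h (t.symm (t x))) : Fin n) : ℕ) = (g (t x) : Fin n)
  rw [Equiv.symm_apply_apply]
  exact congrArg _ (hcomm x)

lemma col_mem (g : Perm (Fin n)) : g ∈ Yg (col g) := by
  intro x
  rw [col_iff]
  exact Perm.SameCycle.symm ⟨1, by simp⟩

lemma same_le {h g : Perm (Fin n)} (hg : h ∈ Yg (col g)) {x y : Fin n} (hxy : h.SameCycle x y) :
    g.SameCycle x y := by
  obtain ⟨i, rfl⟩ := hxy
  rw [← col_iff]
  exact ((Yg (col g)).zpow_mem hg i x).symm

lemma ph_le_of {c d : Fin n → I} (h : ∀ x y, c y = c x → d y = d x) : Ph c ≤ Ph d ∧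
    (Ph c = Ph d → ∀ x y, d y = d x → c y = c x) := by
  have h1 : ∀ x, (univ.filter fun y => c y = c x) ⊆ univ.filter fun y => d y = d x := by
    intro x y hy
    rw [mem_filter] at hy ⊢
    exact ⟨mem_univ _, h x y hy.2⟩
  refine ⟨sum_le_sum fun x _ => card_le_card (h1 x), fun h2 => ?_⟩
  unfold Ph at h2
  have h3 := (sum_eq_sum_iff_of_le (fun x (_ : x ∈ (univ : Finset (Fin n))) =>
    card_le_card (h1 x))).mp h2
  intro x y hxy
  have h4 := eq_of_subset_of_card_le (h1 x) (h3 x (mem_univ x)).ge
  have h5 : y ∈ univ.filter fun z => d z = d x := mem_filter.mpr ⟨mem_univ _, hxy⟩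
  rw [← h4, mem_filter] at h5
  exact h5.2

lemma ph_col {h g : Perm (Fin n)} (hg : h ∈ Yg (col g)) : Ph (col h) ≤ Ph (col g) ∧
    (Ph (col h) = Ph (col g) → ∃ t : Perm (Fin n), t * h * t⁻¹ = g) := by
  obtain ⟨h1, h2⟩ := ph_le_of (c := col h) (d := col g) fun x y hxy => by
    rw [col_iff] at hxy ⊢
    exact same_le hg hxy
  refine ⟨h1, fun h3 => conj_of_same fun x y => ⟨same_le hg, fun hxy => ?_⟩⟩
  have h4 := h2 h3 y x
  rw [col_iff, col_iff] at h4
  exact h4 hxy

/-- **A class function with the means zero over all Young subgroups is zero.** -/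
theorem eq_zero_of_mn {f : Perm (Fin n) → ℂ} (hf : Cl f)
    (h : ∀ c : Fin n → Fin n, mn f c = 0) : f = 0 := by
  have main : ∀ m, ∀ g : Perm (Fin n), Ph (col g) = m → f g = 0 := by
    intro m
    induction m using Nat.strong_induction_on with
    | _ m ih =>
      intro g hg
      have h1 := h (col g)
      have hc : (Nat.card (Yg (col g)) : ℂ) ≠ 0 := by exact_mod_cast Nat.card_pos.ne'
      have h2 : ∑ k ∈ univ.filter (fun k : Perm (Fin n) => k ∈ Yg (col g)), f k = 0 := by
        rcases mul_eq_zero.mp h1 with h3 | h3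
        · exact absurd h3 (inv_ne_zero hc)
        · exact h3
      have h3 : ∀ k ∈ univ.filter (fun k : Perm (Fin n) => k ∈ Yg (col g)),
          f k = if Ph (col k) = Ph (col g) then f g else 0 := by
        intro k hk
        obtain ⟨h4, h5⟩ := ph_col (mem_filter.mp hk).2
        split_ifs with h6
        · obtain ⟨t, ht⟩ := h5 h6
          rw [← ht, hf]
        · exact ih _ (by omega) k rfl
      rw [sum_congr rfl h3, ← sum_filter, sum_const, nsmul_eq_mul] at h2
      rcases mul_eq_zero.mp h2 with h4 | h4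
      · exfalso
        have h5 : ((univ.filter (fun k : Perm (Fin n) => k ∈ Yg (col g))).filter
            (fun k => Ph (col k) = Ph (col g))).card = 0 := by exact_mod_cast h4
        rw [card_eq_zero] at h5
        have h6 : g ∈ (univ.filter (fun k : Perm (Fin n) => k ∈ Yg (col g))).filter
            (fun k => Ph (col k) = Ph (col g)) := by
          rw [mem_filter, mem_filter]
          exact ⟨⟨mem_univ _, col_mem g⟩, rfl⟩
        rw [h5] at h6
        exact notMem_empty _ h6
      · exact h4
  funext g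
  exact main _ g rfl

/-! ### Integrality -/

lemma mn_int {f : Perm (Fin n) → ℂ} (hf : IsChar f) (c : Fin n → I) : ∃ a : ℤ, mn f c = a := by
  obtain ⟨V, _, _, _, ρ, rfl⟩ := hf
  let H := Yg c
  let τ : Representation ℂ H V := ρ.comp H.subtype
  have hinv : Invertible (Fintype.card H : ℂ) :=
    invertibleOfNonzero (by exact_mod_cast Fintype.card_ne_zero)
  have h1 := (Representation.isProj_averageMap τ).trace
  refine ⟨(Module.finrank ℂ (Representation.invariants τ) : ℤ), ?_⟩
  push_cast
  rw [← h1]
  have h2 : LinearMap.trace ℂ V (Representation.averageMap τ) =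
      (Fintype.card H : ℂ)⁻¹ * ∑ h : H, ρ.character h := by
    rw [Representation.averageMap, GroupAlgebra.average, map_smul, map_sum, map_smul, map_sum]
    simp only [smul_eq_mul, invOf_eq_inv]
    congr 1
    refine sum_congr rfl fun h _ => ?_
    rw [Representation.asAlgebraHom_of]
    rfl
  rw [h2, mn, Nat.card_eq_fintype_card]
  congr 1
  exact Finset.sum_subtype _ (fun x => by
    rw [mem_filter]
    exact ⟨fun h => h.2, fun h => ⟨mem_univ _, h⟩⟩) _

/-! ### The main theorem -/

lemma mn_sub (f g : Perm (Fin n) → ℂ) (c : Fin n → I) : mn (f - g) c = mn f c - mn g c := by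
  unfold mn
  rw [← mul_sub, ← sum_sub_distrib]
  rfl

lemma mn_sum {κ : Type} (s : Finset κ) (a : κ → ℤ) (f : κ → Perm (Fin n) → ℂ) (c : Fin n → I) :
    mn (∑ r ∈ s, a r • f r) c = ∑ r ∈ s, a r * mn (f r) c := by
  unfold mn
  have h1 : ∀ g, (∑ r ∈ s, a r • f r) g = ∑ r ∈ s, (a r : ℂ) * f r g := by
    intro g
    rw [Finset.sum_apply]
    refine sum_congr rfl fun r _ => ?_
    rw [Pi.smul_apply, zsmul_eq_mul]
  rw [sum_congr rfl fun g _ => h1 g, sum_comm, mul_sum]
  refine sum_congr rfl fun r _ => ?_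
  rw [← mul_sum]
  ring

/-- the linear character given by the sign -/
def sgH (H : Subgroup (Perm (Fin n))) : H →* ℂˣ :=
  ((Units.map (Int.castRingHom ℂ).toMonoidHom).comp Perm.sign).comp H.subtype

lemma sgH_apply (H : Subgroup (Perm (Fin n))) (h : H) : ((sgH H h : ℂˣ) : ℂ) = sgn h.1 := rfl

lemma isChar_Nq (q : Fin n → ℕ) : IsChar (Nq q) := by
  have h1 := Pool.Agent.K4H74.SC.isChar_ind (Yg q) (IsChar.lc (sgH (Yg q)))
  exact h1

lemma IsChar.cl {f : Perm (Fin n) → ℂ} (hf : IsChar f) : Cl f := by
  obtain ⟨V, _, _, _, ρ, rfl⟩ := hf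
  intro g x
  change LinearMap.trace ℂ V (ρ (x * g * x⁻¹)) = LinearMap.trace ℂ V (ρ g)
  rw [map_mul ρ, map_mul ρ, LinearMap.trace_mul_comm, ← mul_assoc, ← map_mul, inv_mul_cancel,
    map_one, one_mul]

lemma mn_Nq_self {c : Fin n → I} {q : Fin n → ℕ} (h : Std c q) : mn (Nq q) c = 1 := by
  rw [mn_Nq, ci_std h]
  have h1 : (Nat.card (Yg c) : ℂ) ≠ 0 := by exact_mod_cast Nat.card_pos.ne'
  have h2 : (Nat.card (Yg q) : ℂ) ≠ 0 := by exact_mod_cast Nat.card_pos.ne'
  push_cast
  field_simp

theorem span_aux (m : ℕ) : ∀ f : Perm (Fin n) → ℂ, Cl f → (∀ c : Fin n → Fin n, ∃ a : ℤ, mn f c = a) →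
    (∀ c : Fin n → Fin n, m ≤ Ph c → mn f c = 0) →
    f ∈ AddSubgroup.closure (Set.range fun q : Fin n → ℕ => Nq q) := by
  induction m with
  | zero =>
    intro f hf _ h0
    rw [eq_zero_of_mn hf fun c => h0 c (Nat.zero_le _)]
    exact zero_mem _
  | succ m ih =>
    intro f hf hi h0
    choose a ha using hi
    choose q hq using fun c : Fin n → Fin n => exists_std c
    let R : Finset (Fin n → Fin n) := univ.filter fun c =>
      Ph c = m ∧ (Quotient.mk eqS c).out = c
    let F : Perm (Fin n) → ℂ := ∑ r ∈ R, a r • Nq (q r)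
    have hFcl : Cl F := by
      intro g x
      change (∑ r ∈ R, a r • Nq (q r)) _ = (∑ r ∈ R, a r • Nq (q r)) _
      rw [Finset.sum_apply, Finset.sum_apply]
      refine sum_congr rfl fun r _ => ?_
      rw [Pi.smul_apply, Pi.smul_apply, (IsChar.cl (isChar_Nq (q r))) g x]
    have hF : F ∈ AddSubgroup.closure (Set.range fun q : Fin n → ℕ => Nq q) :=
      sum_mem fun r _ => zsmul_mem (AddSubgroup.subset_closure (Set.mem_range_self (q r))) _
    have key : f - F ∈ AddSubgroup.closure (Set.range fun q : Fin n → ℕ => Nq q) := by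
      refine ih (f - F) ?_ ?_ ?_
      · intro g x
        rw [Pi.sub_apply, Pi.sub_apply, hf, hFcl]
      · intro c
        choose b hb using fun r => mn_int (isChar_Nq (q r)) c
        refine ⟨a c - ∑ r ∈ R, a r * b r, ?_⟩
        rw [mn_sub, ha, mn_sum]
        push_cast
        congr 1
        refine sum_congr rfl fun r _ => ?_
        rw [hb]
      · intro c hc
        rw [mn_sub, mn_sum]
        have hne : ∀ r ∈ R, ¬ Eqv c r → mn (Nq (q r)) c = 0 := by
          intro r hr hE
          rw [mem_filter] at hr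
          by_cases h1 : ci c (q r) = 0
          · rw [mn_Nq, h1]
            simp
          · obtain ⟨h2, h3⟩ := ci_ne (hq r) h1
            exact absurd (h3 (by omega)) hE
        rcases hc.lt_or_eq with hc' | hc'
        · rw [h0 c hc', sum_eq_zero, sub_zero]
          intro r hr
          rw [hne r hr, mul_zero]
          intro hE
          have h4 := ph_eqv hE
          rw [mem_filter] at hr
          omega
        · set r₀ := (Quotient.mk eqS c).out with hr₀
          have h1 : Eqv r₀ c := Quotient.mk_out (s := eqS) c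
          have h1' : Eqv c r₀ := eqS.symm h1
          have h2 : r₀ ∈ R := by
            rw [mem_filter]
            refine ⟨mem_univ _, (ph_eqv h1).trans hc'.symm, ?_⟩
            rw [Quotient.sound (s := eqS) h1]
          rw [sum_eq_single r₀]
          · rw [mn_eqv h1' (IsChar.cl (isChar_Nq (q r₀))), mn_Nq_self (hq r₀), mul_one, ← ha,
              mn_eqv h1' hf, sub_self]
          · intro r hr hrr
            rw [hne r hr, mul_zero]
            intro hE
            apply hrr
            rw [mem_filter] at hr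
            rw [← hr.2.2, hr₀, Quotient.sound (s := eqS) hE]
          · intro h3
            exact absurd h2 h3
    have h5 := add_mem key hF
    rwa [sub_add_cancel] at h5

/-- twisting by the sign -/
lemma isChar_twist {f : Perm (Fin n) → ℂ} (hf : IsChar f) : IsChar (fun g => sgn g * f g) := by
  obtain ⟨V, _, _, _, ρ, rfl⟩ := hf
  let σ : Representation ℂ (Perm (Fin n)) V :=
    { toFun := fun g => sgn g • ρ g
      map_one' := by rw [sgn_one, one_smul, map_one]
      map_mul' := by
        intro a b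
        rw [sgn_mul, map_mul, smul_mul_smul_comm] }
  refine ⟨V, inferInstance, inferInstance, inferInstance, σ, ?_⟩
  funext g
  change sgn g * LinearMap.trace ℂ V (ρ g) = LinearMap.trace ℂ V (sgn g • ρ g)
  rw [map_smul, smul_eq_mul]

lemma twist_Nq (q : Fin n → ℕ) (g : Perm (Fin n)) :
    sgn g * Nq q g = ind (Yg q) (fun _ => (1 : ℂ)) g := by
  rw [Nq, ind, ind, finsum_eq_sum_of_fintype, finsum_eq_sum_of_fintype, mul_left_comm, mul_sum]
  congr 1
  refine sum_congr rfl fun x _ => ?_
  rw [Pool.Agent.R389.ext, Pool.Agent.R389.ext]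
  split_ifs with h
  · change sgn g * sgn (x⁻¹ * g * x) = 1
    rw [sgn_conj, sgn_sq]
  · rw [mul_zero]

/-- **The characters of the symmetric group are integral combinations of the permutation
characters of the Young subgroups.** -/
theorem sn_main {f : Perm (Fin n) → ℂ} (hf : IsChar f) :
    f ∈ AddSubgroup.closure (Set.range fun q : Fin n → ℕ => ind (Yg q) (fun _ => (1 : ℂ))) := by
  have h1 := isChar_twist hf
  obtain ⟨m, hm⟩ : ∃ m, ∀ c : Fin n → Fin n, Ph c < m :=
    ⟨(∑ c : Fin n → Fin n, Ph c) + 1, fun c => Nat.lt_succ_of_le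
      (single_le_sum (f := fun c : Fin n → Fin n => Ph c) (fun _ _ => Nat.zero_le _) (mem_univ c))⟩
  have h2 := span_aux m _ (IsChar.cl h1) (fun c => mn_int h1 c)
    (fun c hc => absurd hc (not_le.mpr (hm c)))
  have h3 : ∀ F ∈ AddSubgroup.closure (Set.range fun q : Fin n → ℕ => Nq q),
      (fun g => sgn g * F g) ∈
        AddSubgroup.closure (Set.range fun q : Fin n → ℕ => ind (Yg q) (fun _ => (1 : ℂ))) := by
    intro F hF
    induction hF using AddSubgroup.closure_induction with
    | mem x hx =>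
      obtain ⟨q, rfl⟩ := hx
      refine AddSubgroup.subset_closure ⟨q, ?_⟩
      funext g
      exact (twist_Nq q g).symm
    | zero =>
      have e1 : (fun g => sgn g * (0 : Perm (Fin n) → ℂ) g) = 0 := by
        funext g
        simp
      rw [e1]
      exact zero_mem _
    | add x y _ _ hx hy =>
      have e1 : (fun g => sgn g * (x + y) g) = (fun g => sgn g * x g) + fun g => sgn g * y g := by
        funext g
        simp [mul_add]
      rw [e1]
      exact add_mem hx hy
    | neg x _ hx =>
      have e1 : (fun g => sgn g * (-x) g) = -(fun g => sgn g * x g) := by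
        funext g
        simp
      rw [e1]
      exact neg_mem hx
  have h4 := h3 _ h2
  have h5 : (fun g => sgn g * (sgn g * f g)) = f := by
    funext g
    rw [← mul_assoc, sgn_sq, one_mul]
  rwa [h5] at h4

end

end Run7.h200.BK
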