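import Mathlib
import Pool.Agent.Run7.h200.BK.Grp
import Pool.Agent.K4H74.ST.Fin
import Pool.Agent.K4H74.SC.Wrap
import Pool.Agent.K4H74.SC.Inst
import Pool.Agent.Run7.h200.BK.SnM

/-!
# The values of the invariants at the induced characters
-/

set_option autoImplicit false
set_option linter.unusedSectionVars false

namespace Run7.h200.BK

open NumberField Pool.Agent.R389 Function
open Pool.Agent.K4H74.ST (IsChar ArtinInvariant indChar lc TrivOne)

section up

variable (K F L : Type) [Field K] [Field F] [Field L] [Algebra K F] [Algebra F L]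
    [Algebra K L] [IsScalarTower K F L]

/-- the automorphisms over `F` as automorphisms over `K` -/
def up : (L ≃ₐ[F] L) →* (L ≃ₐ[K] L) where
  toFun h := h.restrictScalars K
  map_one' := rfl
  map_mul' _ _ := rfl

lemma up_apply (h : L ≃ₐ[F] L) (x : L) : up K F L h x = h x := rfl

lemma up_inj : Injective (up K F L) := fun h h' hh => by
  ext x
  exact DFunLike.congr_fun hh x

/-- the automorphisms of `L` over `F` -/
noncomputable def upE : (L ≃ₐ[F] L) ≃* (up K F L).range := MonoidHom.ofInjective (up_inj K F L)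

lemma upE_coe (h : L ≃ₐ[F] L) : ((upE K F L h : (up K F L).range) : L ≃ₐ[K] L) = up K F L h := rfl

/-- induction in terms of subgroups -/
lemma ind_up (f : (L ≃ₐ[F] L) → ℂ) : indChar K F L f =
    ind (up K F L).range (fun x => f ((upE K F L).symm x)) := by
  classical
  have hc : Nat.card (up K F L).range = Nat.card (L ≃ₐ[F] L) :=
    (Nat.card_congr (upE K F L).toEquiv).symm
  funext g
  rw [ind, indChar, hc]
  congr 1
  refine finsum_congr fun x => ?_
  by_cases hx : x⁻¹ * g * x ∈ (up K F L).range
  · rw [ext, dif_pos hx]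
    obtain ⟨h, hh⟩ := hx
    have e1 : (upE K F L).symm ⟨x⁻¹ * g * x, ⟨h, hh⟩⟩ = h := by
      apply (upE K F L).injective
      rw [MulEquiv.apply_symm_apply]
      exact Subtype.ext hh.symm
    rw [e1, finsum_eq_single _ h]
    · exact finsum_eq_single _ hh (fun h1 h2 => absurd rfl h2)
    · intro h' hn
      refine @finsum_of_isEmpty _ _ _ ⟨fun h1 => ?_⟩ _
      apply hn
      apply up_inj K F L
      rw [hh]
      exact h1
  · rw [ext, dif_neg hx]
    apply finsum_eq_zero_of_forall_eq_zero
    intro h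
    refine @finsum_of_isEmpty _ _ _ ⟨fun h1 => ?_⟩ _
    apply hx
    exact ⟨h, h1⟩

end up

section val

variable {M : Type} [CommGroup M] (A : ArtinInvariant M) (hR : TrivOne A)

include hR in
/-- the value at a permutation character -/
lemma val_perm {K L : Type} [Field K] [NumberField K] [Field L] [NumberField L] [Algebra K L]
    [IsGalois K L] (D : Subgroup (L ≃ₐ[K] L)) : A.val K L (ind D (fun _ => (1 : ℂ))) = 1 := by
  have hfin : FiniteDimensional K L := Module.Finite.of_restrictScalars_finite ℚ K L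
  have h1 := Pool.Agent.K4H74.ST.ind_fixed (K := K) (L := L) D (fun _ => (1 : ℂ))
  rw [h1]
  have h2 := A.val_ind K (IntermediateField.fixedField D) L (lc 1) (IsChar.lc 1)
  have h3 : (lc (1 : (L ≃ₐ[IntermediateField.fixedField D] L) →* ℂˣ)) = fun _ => 1 := by
    funext g
    exact Units.val_one
  rw [Pool.Agent.K4H74.ST.val_one hR, h3] at h2
  exact h2

variable (K F L : Type) [Field K] [NumberField K] [Field F] [NumberField F] [Field L]
    [NumberField L] [Algebra K F] [Algebra F L] [Algebra K L] [IsScalarTower K F L] [IsGalois K L]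
    [IsGalois F L]

include hR in
/-- **The characters of the extensions of affine type.** -/
theorem val_aff {p : ℕ} [Fact p.Prime] {υ : (L ≃ₐ[K] L) →* (ZMod p)ˣ}
    (h : Aff p (up K F L).range υ) (ψ : (L ≃ₐ[F] L) →* ℂˣ) : A.val F L (lc ψ) = 1 := by
  by_cases hψ : ψ = 1
  · rw [hψ]
    exact Pool.Agent.K4H74.ST.val_one hR
  · let ψ' : (up K F L).range →* ℂˣ := ψ.comp (upE K F L).symm.toMonoidHom
    have hψ' : ψ' ≠ 1 := by
      intro h1
      apply hψ
      ext g
      have h2 := DFunLike.congr_fun h1 (upE K F L g)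
      have h3 : ψ' (upE K F L g) = ψ g := by
        change ψ ((upE K F L).symm (upE K F L g)) = ψ g
        rw [MulEquiv.symm_apply_apply]
      rw [← h3, h2]
      rfl
    obtain ⟨D, hD⟩ := ind_aff h hψ'
    have h1 : indChar K F L (lc ψ) = ind (up K F L).range (fun n => ((ψ' n : ℂˣ) : ℂ)) :=
      ind_up K F L (lc ψ)
    have h2 : IsChar (ind (up K F L).range (fun n => ((ψ' n : ℂˣ) : ℂ))) :=
      Pool.Agent.K4H74.SC.isChar_ind _ (IsChar.lc ψ')
    have h3 : ind (up K F L).range (fun n => ((ψ' n : ℂˣ) : ℂ)) + lc (1 : (L ≃ₐ[K] L) →* ℂˣ) =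
        ind D (fun _ => (1 : ℂ)) := by
      funext g
      rw [Pi.add_apply, ← hD g]
      congr 1
    have h4 := A.val_add K L _ _ h2 (IsChar.lc 1)
    rw [h3, val_perm A hR, Pool.Agent.K4H74.ST.val_one hR, mul_one] at h4
    rw [← A.val_ind K F L (lc ψ) (IsChar.lc ψ), h1, ← h4]

end val

section sn

variable {M : Type} [CommGroup M] (A : ArtinInvariant M) (hR : TrivOne A)

open Classical in
lemma ind_map {G G' : Type} [Group G] [Group G'] [Finite G] [Finite G'] (e : G ≃* G')
    (H : Subgroup G) (g : G) :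
    ind (H.map (e : G →* G')) (fun _ => (1 : ℂ)) (e g) = ind H (fun _ => (1 : ℂ)) g := by
  have : Fintype G := Fintype.ofFinite G
  have : Fintype G' := Fintype.ofFinite G'
  rw [ind_one, ind_one]
  have h1 : Nat.card (H.map (e : G →* G')) = Nat.card H :=
    (Nat.card_congr (e.subgroupMap H).toEquiv).symm
  rw [h1]
  congr 2
  have h2 : ∀ x, x ∈ H.map (e : G →* G') ↔ e.symm x ∈ H := by
    intro x
    rw [Subgroup.mem_map]
    constructor
    · rintro ⟨y, hy, rfl⟩
      change e.symm (e y) ∈ H
      rwa [MulEquiv.symm_apply_apply]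
    · intro h
      exact ⟨e.symm x, h, MulEquiv.apply_symm_apply e x⟩
  refine Finset.card_bij' (fun x _ => e.symm x) (fun x _ => e x) ?_ ?_ ?_ ?_
  · intro x hx
    rw [Finset.mem_filter, h2] at hx
    rw [Finset.mem_filter]
    refine ⟨Finset.mem_univ _, ?_⟩
    have h3 := hx.2
    rw [map_mul, map_mul, map_inv, MulEquiv.symm_apply_apply] at h3
    exact h3
  · intro x hx
    rw [Finset.mem_filter] at hx
    rw [Finset.mem_filter, h2]
    refine ⟨Finset.mem_univ _, ?_⟩
    rw [map_mul, map_mul, map_inv, MulEquiv.symm_apply_apply, MulEquiv.symm_apply_apply]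
    exact hx.2
  · intro x _
    exact MulEquiv.apply_symm_apply e x
  · intro x _
    exact MulEquiv.symm_apply_apply e x

include hR in
/-- **The invariants of the extensions with a symmetric group are trivial.** -/
theorem val_sn {K L : Type} [Field K] [NumberField K] [Field L] [NumberField L] [Algebra K L]
    [IsGalois K L] {n : ℕ} (e : Equiv.Perm (Fin n) ≃* (L ≃ₐ[K] L)) {χ : (L ≃ₐ[K] L) → ℂ}
    (hχ : IsChar χ) : A.val K L χ = 1 := by
  have hfin : FiniteDimensional K L := Module.Finite.of_restrictScalars_finite ℚ K L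
  have h1 : IsChar (fun g => χ (e g)) := by
    obtain ⟨V, _, _, _, ρ, rfl⟩ := hχ
    exact ⟨V, inferInstance, inferInstance, inferInstance, ρ.comp e.toMonoidHom, rfl⟩
  have h2 := sn_main h1
  have h3 : ∀ F ∈ AddSubgroup.closure (Set.range fun q : Fin n → ℕ =>
      ind (Yg q) (fun _ => (1 : ℂ))),
      Pool.Agent.K4H74.ST.Val A K L (fun g => F (e.symm g)) 1 := by
    intro F hF
    induction hF using AddSubgroup.closure_induction with
    | mem x hx =>
      obtain ⟨q, rfl⟩ := hx
      have h4 : (fun g => ind (Yg q) (fun _ => (1 : ℂ)) (e.symm g)) =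
          ind ((Yg q).map (e : Equiv.Perm (Fin n) →* (L ≃ₐ[K] L))) (fun _ => (1 : ℂ)) := by
        funext g
        rw [← ind_map e, MulEquiv.apply_symm_apply]
      beta_reduce
      rw [h4, ← val_perm A hR ((Yg q).map (e : Equiv.Perm (Fin n) →* (L ≃ₐ[K] L)))]
      refine Pool.Agent.K4H74.ST.Val.of_char A ?_
      have h5 := Pool.Agent.K4H74.SC.isChar_ind
        ((Yg q).map (e : Equiv.Perm (Fin n) →* (L ≃ₐ[K] L))) (IsChar.lc 1)
      have h6 : lc (1 : ((Yg q).map (e : Equiv.Perm (Fin n) →* (L ≃ₐ[K] L))) →* ℂˣ) =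
          fun _ => 1 := by
        funext g
        exact Units.val_one
      rwa [h6] at h5
    | zero => exact Pool.Agent.K4H74.ST.Val.zero A
    | add x y _ _ hx hy =>
      have h4 := Pool.Agent.K4H74.ST.Val.add A hx hy
      rw [one_mul] at h4
      exact h4
    | neg x _ hx =>
      have h4 := Pool.Agent.K4H74.ST.Val.neg A hx
      rw [inv_one] at h4
      exact h4
  have h4 := h3 _ h2
  have h5 : (fun g => χ (e (e.symm g))) = χ := by
    funext g
    rw [MulEquiv.apply_symm_apply]
  beta_reduce at h4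
  rw [h5] at h4
  exact (Pool.Agent.K4H74.ST.Val.of_char A hχ).unique A h4

variable (K F H L : Type) [Field K] [NumberField K] [Field F] [NumberField F] [Field H]
    [NumberField H] [Field L] [NumberField L] [Algebra K F] [Algebra F H] [Algebra F L]
    [Algebra H L] [Algebra K L] [IsScalarTower K F L] [IsScalarTower F H L] [IsGalois K L]
    [IsGalois F H]

include hR in
/-- the characters of the extensions inside an extension with a symmetric group -/
theorem val_sn_inside {n : ℕ} (e : Equiv.Perm (Fin n) ≃* (L ≃ₐ[K] L)) {χ : (H ≃ₐ[F] H) → ℂ}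
    (hχ : IsChar χ) : A.val F H χ = 1 := by
  have hFL : IsGalois F L := IsGalois.tower_top_of_isGalois K F L
  rw [← A.val_infl F H L χ hχ]
  have h1 : IsChar (fun g : L ≃ₐ[F] L => χ (AlgEquiv.restrictNormalHom H g)) := by
    obtain ⟨V, _, _, _, ρ, rfl⟩ := hχ
    exact ⟨V, inferInstance, inferInstance, inferInstance,
      ρ.comp (AlgEquiv.restrictNormalHom H), rfl⟩
  rw [← A.val_ind K F L _ h1]
  exact val_sn A hR e (Pool.Agent.K4H74.SC.isChar_indChar h1)

end sn

end Run7.h200.BK
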