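import Mathlib
import Pool.Agent.Run7.h200.BK.Fld

/-!
# Kummer extensions
-/

set_option autoImplicit false
set_option linter.unusedSectionVars false

namespace Run7.h200.BK

open NumberField Pool.Agent.R389 Function

variable (K F L : Type) [Field K] [NumberField K] [Field F] [NumberField F] [Field L]
    [NumberField L] [Algebra K F] [Algebra F L] [Algebra K L] [IsScalarTower K F L] [IsGalois K L]
    [IsGalois F L]

lemma index_up : (up K F L).range.index = Module.finrank K F := by
  have h1 : FiniteDimensional K L := Module.Finite.of_restrictScalars_finite ℚ K L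
  have h2 : FiniteDimensional F L := Module.Finite.of_restrictScalars_finite ℚ F L
  have h3 := Subgroup.card_mul_index (up K F L).range
  have h4 : Nat.card (up K F L).range = Module.finrank F L := by
    rw [← IsGalois.card_aut_eq_finrank F L]
    exact (Nat.card_congr (upE K F L).toEquiv).symm
  rw [h4, IsGalois.card_aut_eq_finrank K L, ← Module.finrank_mul_finrank K F L, mul_comm] at h3
  exact Nat.eq_of_mul_eq_mul_right Module.finrank_pos h3

lemma mem_up {g : L ≃ₐ[K] L} (h : ∀ x : F, g (algebraMap F L x) = algebraMap F L x) :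
    g ∈ (up K F L).range :=
  ⟨AlgEquiv.ofRingEquiv (f := g.toRingEquiv) h, by ext x; rfl⟩

lemma up_fix {g : L ≃ₐ[K] L} (h : g ∈ (up K F L).range) (x : F) :
    g (algebraMap F L x) = algebraMap F L x := by
  obtain ⟨h, rfl⟩ := h
  exact h.commutes x

variable {K F L}

/-- a homomorphism with the kernel `Gal(L/F)` is surjective if `[F : K] = p - 1` -/
lemma aff_of {p : ℕ} [hp : Fact p.Prime] {υ : (L ≃ₐ[K] L) →* (ZMod p)ˣ}
    (hker : υ.ker = (up K F L).range) (hdeg : Module.finrank K F = p - 1)
    (hpow : ∀ n : L ≃ₐ[F] L, n ^ p = 1)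
    (hact : ∀ (g : L ≃ₐ[K] L) (n : L ≃ₐ[F] L) (x : L),
      g (n (g⁻¹ x)) = (n ^ ((υ g : (ZMod p)ˣ) : ZMod p).val) x) :
    Aff p (up K F L).range υ := by
  refine ⟨hker, ?_, ?_, ?_⟩
  · rw [← MonoidHom.range_eq_top]
    refine Subgroup.eq_top_of_card_eq _ ?_
    rw [← Subgroup.index_ker, hker, index_up, hdeg, Nat.card_eq_fintype_card, ZMod.card_units]
  · rintro _ ⟨n, rfl⟩
    rw [← map_pow, hpow, map_one]
  · rintro g _ ⟨n, rfl⟩
    rw [← map_pow]
    ext x
    exact hact g n x

/-- the homomorphism given by a root of unity -/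
theorem aff_kummer {p : ℕ} [hp : Fact p.Prime] {ζ : F} (hζ : IsPrimitiveRoot ζ p)
    (hF : IntermediateField.adjoin K {ζ} = ⊤) (hdeg : Module.finrank K F = p - 1)
    (hL : IntermediateField.adjoin F {x : L | ∃ a : K, x ^ p = algebraMap K L a} = ⊤) :
    ∃ υ : (L ≃ₐ[K] L) →* (ZMod p)ˣ, Aff p (up K F L).range υ := by
  have hζL : IsPrimitiveRoot (algebraMap F L ζ) p :=
    hζ.map_of_injective (algebraMap F L).injective
  let υ : (L ≃ₐ[K] L) →* (ZMod p)ˣ := hζL.autToPow K
  have hυ : ∀ g : L ≃ₐ[K] L, (algebraMap F L ζ) ^ ((υ g : (ZMod p)ˣ) : ZMod p).val =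
      g (algebraMap F L ζ) := fun g => hζL.autToPow_spec K g
  have hker : υ.ker = (up K F L).range := by
    ext g
    rw [MonoidHom.mem_ker]
    constructor
    · intro h1
      apply mem_up
      have h2 : g (algebraMap F L ζ) = algebraMap F L ζ := by
        rw [← hυ g, h1, Units.val_one, ZMod.val_one_eq_one_mod, Nat.mod_eq_of_lt hp.out.one_lt,
          pow_one]
      intro x
      have hx : x ∈ IntermediateField.adjoin K {ζ} := by rw [hF]; exact IntermediateField.mem_top
      induction hx using IntermediateField.adjoin_induction with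
      | mem x hx =>
        rw [Set.mem_singleton_iff] at hx
        rw [hx]
        exact h2
      | algebraMap x =>
        rw [← IsScalarTower.algebraMap_apply K F L]
        exact g.commutes x
      | add x y _ _ hx hy => rw [map_add, map_add, hx, hy]
      | mul x y _ _ hx hy => rw [map_mul, map_mul, hx, hy]
      | inv x _ hx => rw [map_inv₀, map_inv₀, hx]
    · intro h1
      have h2 := up_fix K F L h1 ζ
      rw [← hυ g] at h2
      have h3 : (algebraMap F L ζ) ^ ((υ g : (ZMod p)ˣ) : ZMod p).val = (algebraMap F L ζ) ^ 1 := by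
        rw [h2, pow_one]
      have h4 := hζL.pow_inj (ZMod.val_lt _) hp.out.one_lt h3
      apply Units.ext
      rw [Units.val_one]
      apply ZMod.val_injective p
      rw [h4, ZMod.val_one_eq_one_mod, Nat.mod_eq_of_lt hp.out.one_lt]
  -- the values at the radicals
  have hrad : ∀ (g : L ≃ₐ[K] L) (x : L), (∃ a : K, x ^ p = algebraMap K L a) →
      ∃ i : ℕ, g x = (algebraMap F L ζ) ^ i * x := by
    rintro g x ⟨a, ha⟩
    by_cases hx : x = 0
    · exact ⟨0, by rw [hx, map_zero, mul_zero]⟩
    · have h1 : (g x / x) ^ p = 1 := by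
        rw [div_pow, ← map_pow, ha, g.commutes, div_self]
        rw [← ha]
        exact pow_ne_zero _ hx
      obtain ⟨i, -, hi⟩ := hζL.eq_pow_of_pow_eq_one h1
      exact ⟨i, by rw [hi, div_mul_cancel₀ _ hx]⟩
  have hradF : ∀ (n : L ≃ₐ[F] L) (x : L), (∃ a : K, x ^ p = algebraMap K L a) →
      ∃ i : ℕ, ∀ k : ℕ, (n ^ k) x = (algebraMap F L ζ) ^ (i * k) * x := by
    intro n x hx
    obtain ⟨i, hi⟩ := hrad (up K F L n) x hx
    rw [up_apply] at hi
    refine ⟨i, fun k => ?_⟩
    induction k with
    | zero => rw [pow_zero, mul_zero, pow_zero, one_mul]; rfl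
    | succ k ih =>
      rw [pow_succ', AlgEquiv.mul_apply, ih, map_mul, map_pow, n.commutes, hi]
      ring
  -- an element of `L` is fixed if the generators are fixed
  have hgen : ∀ f f' : L →+* L, (∀ x : F, f (algebraMap F L x) = f' (algebraMap F L x)) →
      (∀ x : L, (∃ a : K, x ^ p = algebraMap K L a) → f x = f' x) → ∀ x, f x = f' x := by
    intro f f' h1 h2 x
    have hx : x ∈ IntermediateField.adjoin F {x : L | ∃ a : K, x ^ p = algebraMap K L a} := by
      rw [hL]; exact IntermediateField.mem_top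
    induction hx using IntermediateField.adjoin_induction with
    | mem x hx => exact h2 x hx
    | algebraMap x => exact h1 x
    | add x y _ _ hx hy => rw [map_add, map_add, hx, hy]
    | mul x y _ _ hx hy => rw [map_mul, map_mul, hx, hy]
    | inv x _ hx => rw [map_inv₀, map_inv₀, hx]
  refine ⟨υ, aff_of hker hdeg ?_ ?_⟩
  · intro n
    apply AlgEquiv.ext
    refine hgen ((n ^ p : L ≃ₐ[F] L) : L →+* L) (RingHom.id L) (fun x => (n ^ p).commutes x) ?_
    intro x hx
    obtain ⟨i, hi⟩ := hradF n x hx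
    change (n ^ p) x = x
    rw [hi p, mul_comm i p, pow_mul, hζL.pow_eq_one, one_pow, one_mul]
  · intro g n
    have hN : (up K F L).range.Normal := by
      rw [← hker]
      infer_instance
    refine hgen ((g : L →+* L).comp ((n : L →+* L).comp ((g⁻¹ : L ≃ₐ[K] L) : L →+* L)))
      ((n ^ ((υ g : (ZMod p)ˣ) : ZMod p).val : L ≃ₐ[F] L) : L →+* L) ?_ ?_
    · intro x
      have h1 := up_fix K F L (hN.conj_mem _ ⟨n, rfl⟩ g) x
      change g (n (g⁻¹ (algebraMap F L x))) = (n ^ ((υ g : (ZMod p)ˣ) : ZMod p).val) (algebraMap F L x)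
      rw [AlgEquiv.commutes]
      exact h1
    · intro x hx
      change g (n (g⁻¹ x)) = (n ^ ((υ g : (ZMod p)ˣ) : ZMod p).val) x
      obtain ⟨i, hi⟩ := hradF n x hx
      obtain ⟨j, hj⟩ := hrad g⁻¹ x hx
      have h1 := hi 1
      rw [pow_one, mul_one] at h1
      have h2 : g (g⁻¹ x) = x := by
        rw [← AlgEquiv.mul_apply, mul_inv_cancel, AlgEquiv.one_apply]
      rw [hj, map_mul, map_pow, n.commutes, h1, hi, mul_left_comm, map_mul, map_pow, ← hυ g, ← hj, h2,
        ← pow_mul, mul_comm i]

end Run7.h200.BK
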